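import Pool.Agent.Helper5.Dens.Euler

/-!
# Primes of degree one
-/

set_option autoImplicit false

namespace Pool.Agent.Helper5.Dens

open NumberField IsDedekindDomain Finset

variable (L : Type) [Field L] [NumberField L]

/-- The residue characteristic. -/
noncomputable def rch (w : HeightOneSpectrum (𝓞 L)) : ℕ := (Ideal.absNorm w.asIdeal).minFac

lemma norm_rch (w : HeightOneSpectrum (𝓞 L)) : (rch L w).Prime ∧
    (∃ f : ℕ, 1 ≤ f ∧ Ideal.absNorm w.asIdeal = rch L w ^ f) ∧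
    ((rch L w : ℕ) : 𝓞 L) ∈ w.asIdeal := by
  classical
  have hmax : w.asIdeal.IsMaximal := w.isPrime.isMaximal w.ne_bot
  let _ : Field (𝓞 L ⧸ w.asIdeal) := Ideal.Quotient.field _
  have : Finite (𝓞 L ⧸ w.asIdeal) := Ideal.finiteQuotientOfFreeOfNeBot _ w.ne_bot
  let _ : Fintype (𝓞 L ⧸ w.asIdeal) := Fintype.ofFinite _
  obtain ⟨p, hchar, n, hp, hcard⟩ := FiniteField.card' (𝓞 L ⧸ w.asIdeal)
  have hN : Ideal.absNorm w.asIdeal = p ^ (n : ℕ) := by
    rw [← hcard, ← Nat.card_eq_fintype_card]; rfl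
  have hr : rch L w = p := by
    unfold rch
    rw [hN, Nat.pow_minFac n.ne_zero, hp.minFac_eq]
  rw [hr]
  refine ⟨hp, ⟨n, n.pos, hN⟩, ?_⟩
  rw [← Ideal.Quotient.eq_zero_iff_mem, map_natCast]
  exact CharP.cast_eq_zero _ _

lemma card_above (p : ℕ) (T : Finset (HeightOneSpectrum (𝓞 L))) (hT : ∀ w ∈ T, rch L w = p) :
    T.card ≤ Module.finrank ℚ L := by
  classical
  rcases T.eq_empty_or_nonempty with rfl | ⟨w0, hw0⟩
  · simp
  have hp : p.Prime := by rw [← hT w0 hw0]; exact (norm_rch L w0).1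
  have hdvd : ∏ I ∈ T.image (fun w => w.asIdeal), I ∣ Ideal.span {(p : 𝓞 L)} := by
    refine Finset.prod_primes_dvd _ ?_ ?_
    · intro I hI
      obtain ⟨w, _, rfl⟩ := mem_image.mp hI
      exact w.prime
    · intro I hI
      obtain ⟨w, hw, rfl⟩ := mem_image.mp hI
      rw [Ideal.dvd_span_singleton, ← hT w hw]
      exact (norm_rch L w).2.2
  have hinj : Set.InjOn (fun w : HeightOneSpectrum (𝓞 L) => w.asIdeal) T :=
    fun v _ w _ h => HeightOneSpectrum.ext h
  rw [prod_image hinj] at hdvd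
  have h1 := Ideal.absNorm_dvd_absNorm_of_le (Ideal.le_of_dvd hdvd)
  have h2 : Ideal.absNorm (Ideal.span {(p : 𝓞 L)}) = p ^ Module.finrank ℚ L := by
    rw [Ideal.absNorm_span_singleton]
    have : ((p : ℕ) : 𝓞 L) = algebraMap ℤ (𝓞 L) p := by simp
    rw [this, Algebra.norm_algebraMap, RingOfIntegers.rank]
    simp
  rw [h2, map_prod] at h1
  have h3 : p ^ T.card ≤ ∏ w ∈ T, Ideal.absNorm w.asIdeal := by
    rw [← prod_const]
    refine prod_le_prod' fun w hw => ?_
    obtain ⟨f, hf, hN⟩ := (norm_rch L w).2.1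
    rw [hN, hT w hw]
    exact Nat.le_self_pow (by omega) p
  exact (Nat.pow_le_pow_iff_right hp.one_lt).mp
    (h3.trans (Nat.le_of_dvd (pow_pos hp.pos _) h1))

lemma sum_rch_le (T : Finset (HeightOneSpectrum (𝓞 L))) (h : ℕ → ℝ) (hh : ∀ n, 0 ≤ h n) :
    ∑ w ∈ T, h (rch L w) ≤ (Module.finrank ℚ L : ℝ) * ∑ p ∈ T.image (rch L), h p := by
  classical
  rw [Finset.sum_comp h (rch L), mul_sum]
  refine sum_le_sum fun p _ => ?_
  rw [nsmul_eq_mul]
  gcongr
  · exact hh p
  · exact card_above L p _ fun w hw => (mem_filter.mp hw).2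

/-- There are finite sets of primes of degree one over distinct rational primes, outside a finite
set of bad primes, with arbitrarily large sum of inverse norms. -/
theorem exists_large {Bad : Set (HeightOneSpectrum (𝓞 L))} (hBad : Bad.Finite) (C : ℝ) :
    ∃ T : Finset (HeightOneSpectrum (𝓞 L)),
      (∀ w ∈ T, w ∉ Bad ∧ Ideal.absNorm w.asIdeal = rch L w) ∧
      Set.InjOn (rch L) T ∧ C ≤ ∑ w ∈ T, ((rch L w : ℕ) : ℝ)⁻¹ := by
  classical
  set d := Module.finrank ℚ L with hd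
  have hdpos : 0 < d := Module.finrank_pos
  have hsumm : Summable fun n : ℕ => ((n : ℝ) ^ 2)⁻¹ := Real.summable_nat_pow_inv.mpr (by norm_num)
  set C0 := ∑' n : ℕ, ((n : ℝ) ^ 2)⁻¹ with hC0
  obtain ⟨x, hx⟩ := prime_sum_unbounded L (d * C + hBad.toFinset.card + d * C0)
  set P := (finite_primes L x).toFinset with hP
  -- the three parts
  set P1 := P.filter fun w => w ∈ Bad with hP1
  set P2 := (P.filter fun w => w ∉ Bad).filter fun w => ¬ Ideal.absNorm w.asIdeal = rch L w with hP2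
  set P3 := (P.filter fun w => w ∉ Bad).filter fun w => Ideal.absNorm w.asIdeal = rch L w with hP3
  have hsplit : ∑ v ∈ P, (Ideal.absNorm v.asIdeal : ℝ)⁻¹ = ∑ v ∈ P1, (Ideal.absNorm v.asIdeal : ℝ)⁻¹
      + (∑ v ∈ P3, (Ideal.absNorm v.asIdeal : ℝ)⁻¹ + ∑ v ∈ P2, (Ideal.absNorm v.asIdeal : ℝ)⁻¹) := by
    rw [hP3, hP2, sum_filter_add_sum_filter_not, hP1, sum_filter_add_sum_filter_not]
  have b1 : ∑ v ∈ P1, (Ideal.absNorm v.asIdeal : ℝ)⁻¹ ≤ hBad.toFinset.card := by
    calc ∑ v ∈ P1, (Ideal.absNorm v.asIdeal : ℝ)⁻¹ ≤ ∑ _v ∈ P1, (1 : ℝ) := by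
          refine sum_le_sum fun v _ => ?_
          have : (1 : ℝ) ≤ Ideal.absNorm v.asIdeal := by
            exact_mod_cast (one_le_two.trans (two_le_norm L v))
          exact inv_le_one_of_one_le₀ this
      _ = (P1.card : ℝ) := by simp
      _ ≤ _ := by
          have : P1 ⊆ hBad.toFinset := by
            intro w hw
            rw [Set.Finite.mem_toFinset]
            exact (mem_filter.mp hw).2
          exact_mod_cast card_le_card this
  have b2 : ∑ v ∈ P2, (Ideal.absNorm v.asIdeal : ℝ)⁻¹ ≤ d * C0 := by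
    calc ∑ v ∈ P2, (Ideal.absNorm v.asIdeal : ℝ)⁻¹ ≤ ∑ v ∈ P2, (((rch L v : ℕ) : ℝ) ^ 2)⁻¹ := by
          refine sum_le_sum fun v hv => ?_
          obtain ⟨hp, ⟨f, hf, hN⟩, _⟩ := norm_rch L v
          have hf2 : 2 ≤ f := by
            rcases Nat.lt_or_ge f 2 with h | h
            · have : f = 1 := by omega
              subst this
              exact absurd (by rw [hN, pow_one]) (mem_filter.mp hv).2
            · exact h
          have h1 : (rch L v) ^ 2 ≤ Ideal.absNorm v.asIdeal := by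
            rw [hN]; exact Nat.pow_le_pow_right hp.pos hf2
          have h2 : (0 : ℝ) < ((rch L v : ℕ) : ℝ) ^ 2 := by
            have := hp.pos
            positivity
          gcongr
          exact_mod_cast h1
      _ ≤ d * ∑ p ∈ P2.image (rch L), ((p : ℝ) ^ 2)⁻¹ :=
          sum_rch_le L P2 (fun n => ((n : ℝ) ^ 2)⁻¹) fun n => by positivity
      _ ≤ _ := by
          gcongr
          exact hsumm.sum_le_tsum _ fun n _ => by positivity
  have b3 : ∑ v ∈ P3, (Ideal.absNorm v.asIdeal : ℝ)⁻¹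
      ≤ d * ∑ p ∈ P3.image (rch L), ((p : ℝ))⁻¹ := by
    have : ∑ v ∈ P3, (Ideal.absNorm v.asIdeal : ℝ)⁻¹ = ∑ v ∈ P3, (((rch L v : ℕ) : ℝ))⁻¹ := by
      refine sum_congr rfl fun v hv => ?_
      rw [(mem_filter.mp hv).2]
    rw [this]
    exact sum_rch_le L P3 (fun n => ((n : ℝ))⁻¹) fun n => by positivity
  have hkey : C ≤ ∑ p ∈ P3.image (rch L), ((p : ℝ))⁻¹ := by
    have h1 : (d : ℝ) * C ≤ d * ∑ p ∈ P3.image (rch L), ((p : ℝ))⁻¹ := by linarith
    exact le_of_mul_le_mul_left h1 (by exact_mod_cast hdpos)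
  -- choose one prime above each rational prime
  rcases P3.eq_empty_or_nonempty with hemp | ⟨w0, _⟩
  · refine ⟨∅, by simp, by simp, ?_⟩
    rw [hemp] at hkey
    simpa using hkey
  have : Nonempty (HeightOneSpectrum (𝓞 L)) := ⟨w0⟩
  have hch : ∀ p ∈ P3.image (rch L), ∃ w ∈ P3, rch L w = p := fun p hp => mem_image.mp hp
  choose! c hc1 hc2 using hch
  have hinj : Set.InjOn c ((P3.image (rch L) : Finset ℕ) : Set ℕ) := by
    intro p hp q hq hpq
    rw [← hc2 p hp, ← hc2 q hq, hpq]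
  refine ⟨(P3.image (rch L)).image c, ?_, ?_, ?_⟩
  · intro w hw
    obtain ⟨p, hp, rfl⟩ := mem_image.mp hw
    have := hc1 p hp
    rw [hP3, mem_filter, mem_filter] at this
    exact ⟨this.1.2, this.2⟩
  · intro v hv w hw hvw
    rw [Finset.mem_coe] at hv hw
    obtain ⟨p, hp, rfl⟩ := mem_image.mp hv
    obtain ⟨q, hq, rfl⟩ := mem_image.mp hw
    rw [hc2 p hp, hc2 q hq] at hvw
    rw [hvw]
  · rw [sum_image hinj]
    refine hkey.trans (le_of_eq (sum_congr rfl fun p hp => ?_))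
    rw [hc2 p hp]

end Pool.Agent.Helper5.Dens
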