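import Pool.Agent.Helper5.Dens.Sieve

/-!
# A set of integers that avoids simple zeros modulo primes has density zero
-/

set_option autoImplicit false

namespace Pool.Agent.Helper5.Dens

open NumberField IsDedekindDomain Finset Filter Topology
open Pool.Agent.Helper5.Camp

variable {L : Type} [Field L] [NumberField L]

lemma finite_ram : {w : HeightOneSpectrum (𝓞 L) | ((rch L w : ℕ) : ℤ) ∣ discr L}.Finite := by
  refine (finite_ordv_ne ((discr L : ℤ) : L)).subset ?_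
  intro w hw
  rw [Set.mem_ofPred_eq] at hw ⊢
  rw [← val_natCast_lt_one_iff] at hw
  have hne : w.valuation L ((discr L : ℤ) : L) ≠ 0 :=
    val_ne w (by exact_mod_cast discr_ne_zero L)
  have h1 : WithZero.log (w.valuation L ((discr L : ℤ) : L)) < 0 := by
    rw [WithZero.log_lt_iff_lt_exp hne, WithZero.exp_zero]; exact hw
  unfold ordv
  omega

lemma finite_nonint (θ : L) : {w : HeightOneSpectrum (𝓞 L) | ¬ w.valuation L θ ≤ 1}.Finite := by
  refine (finite_ordv_ne θ).subset ?_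
  intro w hw
  rw [Set.mem_ofPred_eq, not_le] at hw
  rw [Set.mem_ofPred_eq]
  have hne : w.valuation L θ ≠ 0 := (zero_lt_one.trans hw).ne'
  have h1 : 0 < WithZero.log (w.valuation L θ) := by
    rw [← WithZero.log_one]
    exact (WithZero.log_lt_log one_ne_zero hne).mpr hw
  unfold ordv
  omega

lemma cnt_compl_hit {w : HeightOneSpectrum (𝓞 L)} (hw : Nice w) {θ : L}
    (hθ : w.valuation L θ ≤ 1) :
    (cnt (hit w θ)ᶜ ((rch L w) ^ 2) : ℝ)
      ≤ ((rch L w : ℝ)) ^ 2 * Real.exp (-(1 / 2) * (rch L w : ℝ)⁻¹) := by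
  classical
  have hp := (norm_rch L w).1
  set p := rch L w with hpdef
  have h1 := hit_count hw hθ
  rw [← hpdef] at h1
  have h2 : cnt (hit w θ)ᶜ (p ^ 2) + ((range (p ^ 2)).filter fun n => n ∈ hit w θ).card = p ^ 2 := by
    have h3 := card_filter_add_card_filter_not (s := range (p ^ 2)) (fun n => n ∈ hit w θ)
    rw [card_range] at h3
    have h4 : cnt (hit w θ)ᶜ (p ^ 2) = ((range (p ^ 2)).filter fun n => ¬ n ∈ hit w θ).card := by
      unfold cnt
      congr 1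
      ext n
      rw [mem_fl, mem_filter, Finset.mem_range, Set.mem_compl_iff]
    rw [h4, add_comm]
    exact h3
  have hp2 : 2 ≤ p := hp.two_le
  have h5 : (cnt (hit w θ)ᶜ (p ^ 2) : ℝ) ≤ (p : ℝ) ^ 2 - ((p : ℝ) - 1) := by
    have h6 : cnt (hit w θ)ᶜ (p ^ 2) + (p - 1) ≤ p ^ 2 := by omega
    have h7 : ((cnt (hit w θ)ᶜ (p ^ 2) + (p - 1) : ℕ) : ℝ) ≤ ((p ^ 2 : ℕ) : ℝ) := by
      exact_mod_cast h6
    rw [Nat.cast_add, Nat.cast_sub (by omega), Nat.cast_pow, Nat.cast_one] at h7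
    linarith
  refine h5.trans ?_
  have hp2' : (2 : ℝ) ≤ p := by exact_mod_cast hp2
  have hexp := Real.add_one_le_exp (-(1 / 2) * (p : ℝ)⁻¹)
  have h8 : (p : ℝ) ^ 2 * (-(1 / 2) * (p : ℝ)⁻¹ + 1)
      ≤ (p : ℝ) ^ 2 * Real.exp (-(1 / 2) * (p : ℝ)⁻¹) := by gcongr
  refine le_trans ?_ h8
  have h9 : (p : ℝ) ^ 2 * (-(1 / 2) * (p : ℝ)⁻¹ + 1) = (p : ℝ) ^ 2 - p / 2 := by
    field_simp; ring
  rw [h9]
  linarith

theorem density_zero (θ : L) {Bad : Set (HeightOneSpectrum (𝓞 L))} (hBad : Bad.Finite)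
    {E : Set ℕ} (h : ∀ w ∉ Bad, ∀ n ∈ E, n ∉ hit w θ) :
    Tendsto (fun N : ℕ => (cnt E N : ℝ) / N) atTop (𝓝 0) := by
  classical
  rw [Metric.tendsto_atTop]
  intro ε hε
  -- choose the size of the prime sum
  obtain ⟨C, hC⟩ : ∃ C : ℝ, Real.exp (-(1 / 2) * C) < ε / 2 := by
    refine ⟨-2 * Real.log (ε / 4), ?_⟩
    have : -(1 / 2) * (-2 * Real.log (ε / 4)) = Real.log (ε / 4) := by ring
    rw [this, Real.exp_log (by positivity)]
    linarith
  obtain ⟨T, hT1, hT2, hT3⟩ := exists_large L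
    ((hBad.union (finite_nonint θ)).union (finite_ram (L := L))) C
  have hout : ∀ w ∈ T, w ∉ Bad ∧ w.valuation L θ ≤ 1 ∧ Nice w := by
    intro w hw
    obtain ⟨h1, h2⟩ := hT1 w hw
    rw [Set.mem_union, Set.mem_union, not_or, not_or, Set.mem_ofPred_eq, Set.mem_ofPred_eq,
      not_not] at h1
    exact ⟨h1.1.1, h1.1.2, ⟨h2, h1.2⟩⟩
  set M : HeightOneSpectrum (𝓞 L) → ℕ := fun w => (rch L w) ^ 2 with hM
  set A : HeightOneSpectrum (𝓞 L) → Set ℕ := fun w => (hit w θ)ᶜ with hA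
  obtain ⟨k1, k2, k3⟩ := cnt_biInter_le T M A (fun w _ => pow_pos (norm_rch L w).1.pos 2)
    (fun v hv w hw hvw => by
      refine Nat.Coprime.pow 2 2 ((Nat.coprime_primes (norm_rch L v).1 (norm_rch L w).1).mpr ?_)
      intro hc
      exact hvw (hT2 hv hw hc))
    (fun w hw n => by
      simp only [hA, Set.mem_compl_iff]
      rw [hit_periodic (hout w hw).2.2])
  set Q := ∏ w ∈ T, M w with hQ
  set R := ∏ w ∈ T, cnt (A w) (M w) with hR
  have hRQ : (R : ℝ) ≤ Q * Real.exp (-(1 / 2) * C) := by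
    have h1 : (R : ℝ) ≤ ∏ w ∈ T, (((rch L w : ℝ)) ^ 2 * Real.exp (-(1 / 2) * (rch L w : ℝ)⁻¹)) := by
      rw [hR]
      push_cast
      refine prod_le_prod (fun _ _ => by positivity) fun w hw => ?_
      exact cnt_compl_hit (hout w hw).2.2 (hout w hw).2.1
    rw [prod_mul_distrib, ← Real.exp_sum, ← mul_sum] at h1
    refine h1.trans ?_
    have h2 : ∏ w ∈ T, ((rch L w : ℝ)) ^ 2 = (Q : ℝ) := by
      rw [hQ]; push_cast [hM]; rfl
    rw [h2]
    refine mul_le_mul_of_nonneg_left (Real.exp_le_exp.mpr ?_) (by positivity)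
    linarith
  have hcnt : ∀ N : ℕ, (cnt E N : ℝ) ≤ N * Real.exp (-(1 / 2) * C) + R := by
    intro N
    have h1 : cnt E N ≤ cnt (⋂ w ∈ T, A w) N := by
      refine card_le_card fun n hn => ?_
      rw [mem_fl] at hn ⊢
      refine ⟨hn.1, ?_⟩
      simp only [Set.mem_iInter]
      intro w hw
      exact h w (hout w hw).1 n hn.2
    have h2 := (h1.trans (cnt_le_of_periodic k1 k2 N)).trans (Nat.mul_le_mul_left _ k3)
    have h3 : (cnt E N : ℝ) ≤ ((N / Q : ℕ) + 1) * (R : ℝ) := by exact_mod_cast h2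
    have hQpos : (0 : ℝ) < Q := by exact_mod_cast k1
    have h4 : ((N / Q : ℕ) : ℝ) ≤ N / Q := Nat.cast_div_le
    calc (cnt E N : ℝ) ≤ ((N / Q : ℕ) + 1) * (R : ℝ) := h3
      _ ≤ ((N : ℝ) / Q + 1) * R := by gcongr
      _ = (N : ℝ) / Q * R + R := by ring
      _ ≤ (N : ℝ) / Q * (Q * Real.exp (-(1 / 2) * C)) + R := by gcongr
      _ = _ := by field_simp
  obtain ⟨N0, hN0⟩ := exists_nat_gt (2 * (R : ℝ) / ε)
  refine ⟨max N0 1, fun N hN => ?_⟩
  have hN1 : 1 ≤ N := le_trans (le_max_right _ _) hN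
  have hNpos : (0 : ℝ) < N := by exact_mod_cast hN1
  have hNN0 : (N0 : ℝ) ≤ N := by exact_mod_cast le_trans (le_max_left _ _) hN
  rw [Real.dist_eq, sub_zero, abs_of_nonneg (by positivity), div_lt_iff₀ hNpos]
  have h5 : (R : ℝ) < ε / 2 * N := by
    rw [div_lt_iff₀ hε] at hN0
    nlinarith
  have h6 : (N : ℝ) * Real.exp (-(1 / 2) * C) < N * (ε / 2) := by gcongr
  linarith [hcnt N]

end Pool.Agent.Helper5.Dens
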