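import Mathlib

/-!
# The sum of the inverse norms of the prime ideals of a number field diverges
-/

set_option autoImplicit false

namespace Pool.Agent.Helper5.Dens

open NumberField IsDedekindDomain Finset

variable (L : Type) [Field L] [NumberField L]

/-- The nonzero ideals of norm at most `x`. -/
noncomputable def idl (x : ℕ) : Finset (Ideal (𝓞 L)) := by
  classical
  exact (Ideal.finite_setOfPred_absNorm_le (S := 𝓞 L) x).toFinset.filter fun I => I ≠ ⊥

lemma mem_idl {x : ℕ} {I : Ideal (𝓞 L)} : I ∈ idl L x ↔ Ideal.absNorm I ≤ x ∧ I ≠ ⊥ := by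
  classical
  simp [idl]

lemma card_idl (x : ℕ) :
    (Nat.card {I : Ideal (𝓞 L) // (Ideal.absNorm I : ℝ) ≤ (x : ℝ)} : ℝ)
      = ((idl L x).card : ℝ) + 1 := by
  classical
  have h1 : Nat.card {I : Ideal (𝓞 L) // (Ideal.absNorm I : ℝ) ≤ (x : ℝ)}
      = (insert (⊥ : Ideal (𝓞 L)) (idl L x)).card := by
    refine Nat.subtype_card _ ?_
    intro I
    rw [mem_insert, mem_idl, Nat.cast_le]
    constructor
    · rintro (rfl | h)
      · rw [Ideal.absNorm_bot]; exact Nat.zero_le _
      · exact h.1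
    · intro h
      by_cases hI : I = ⊥
      · exact Or.inl hI
      · exact Or.inr ⟨h, hI⟩
  rw [h1, card_insert_of_notMem (by rw [mem_idl]; simp)]
  push_cast; ring

/-- The sum of inverse norms of the nonzero ideals of norm at most `x`. -/
noncomputable def idlSum (x : ℕ) : ℝ := ∑ I ∈ idl L x, (Ideal.absNorm I : ℝ)⁻¹

lemma idl_mono {x y : ℕ} (h : x ≤ y) : idl L x ⊆ idl L y := by
  intro I hI
  rw [mem_idl] at hI ⊢
  exact ⟨hI.1.trans h, hI.2⟩

lemma idlSum_step {x y : ℕ} (h : x ≤ y) :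
    idlSum L x + (((idl L y).card : ℝ) - (idl L x).card) / y ≤ idlSum L y := by
  classical
  have h1 : idlSum L y = idlSum L x + ∑ I ∈ idl L y \ idl L x, (Ideal.absNorm I : ℝ)⁻¹ := by
    unfold idlSum
    rw [add_comm, sum_sdiff (idl_mono L h)]
  rw [h1]
  gcongr
  have h2 : (((idl L y).card : ℝ) - (idl L x).card) = ((idl L y \ idl L x).card : ℝ) := by
    rw [card_sdiff_of_subset (idl_mono L h), Nat.cast_sub (card_le_card (idl_mono L h))]
  rw [h2, div_eq_mul_inv, ← nsmul_eq_mul, ← sum_const]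
  refine sum_le_sum fun I hI => ?_
  rw [mem_sdiff, mem_idl] at hI
  have h3 : 0 < Ideal.absNorm I := by
    rw [Nat.pos_iff_ne_zero, Ne, Ideal.absNorm_eq_zero_iff]
    exact hI.1.2
  gcongr
  exact hI.1.1

lemma idlSum_unbounded (C : ℝ) : ∃ x : ℕ, C ≤ idlSum L x := by
  classical
  obtain ⟨κ, hκ, hlim⟩ : ∃ κ : ℝ, 0 < κ ∧ Filter.Tendsto (fun s : ℝ =>
      (Nat.card {I : Ideal (𝓞 L) // (Ideal.absNorm I : ℝ) ≤ s} : ℝ) / s) Filter.atTop (nhds κ) := by
    refine ⟨_, ?_, NumberField.Ideal.tendsto_norm_le_div_atTop L⟩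
    have h1 : 0 < Units.regulator L := Units.regulator_pos L
    have h2 : 0 < (classNumber L : ℝ) := by exact_mod_cast classNumber_pos L
    have h3 : 0 < (Units.torsionOrder L : ℝ) := by exact_mod_cast Units.torsionOrder_pos L
    have h4 : 0 < |(discr L : ℝ)| := abs_pos.mpr (by exact_mod_cast discr_ne_zero L)
    positivity
  have hlim' := hlim.comp tendsto_natCast_atTop_atTop
  -- eventually the ratio is close to κ
  have hev : ∀ᶠ x : ℕ in Filter.atTop, 0.9 * κ * x ≤ ((idl L x).card : ℝ) ∧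
      ((idl L x).card : ℝ) ≤ 1.1 * κ * x := by
    have e1 := hlim'.eventually (Ioo_mem_nhds (show 0.95 * κ < κ by linarith)
      (show κ < 1.1 * κ by linarith))
    have e2 : ∀ᶠ x : ℕ in Filter.atTop, 1 ≤ 0.05 * κ * (x : ℝ) := by
      have : Filter.Tendsto (fun x : ℕ => 0.05 * κ * (x : ℝ)) Filter.atTop Filter.atTop :=
        Filter.Tendsto.const_mul_atTop (by positivity) tendsto_natCast_atTop_atTop
      exact this.eventually_ge_atTop 1
    filter_upwards [e1, e2, Filter.eventually_gt_atTop 0] with x h1 h2 h3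
    have hx : (0 : ℝ) < x := by exact_mod_cast h3
    simp only [Function.comp] at h1
    rw [card_idl, lt_div_iff₀ hx, div_lt_iff₀ hx] at h1
    constructor
    · nlinarith [h1.1]
    · linarith [h1.2]
  obtain ⟨x0, hx0⟩ := Filter.eventually_atTop.mp hev
  -- one block
  have hblock : ∀ x, max x0 1 ≤ x → idlSum L x + 0.6 * κ ≤ idlSum L (4 * x) := by
    intro x hx
    have h1 := (hx0 x (le_trans (le_max_left _ _) hx)).2
    have h2 := (hx0 (4 * x) (le_trans (le_trans (le_max_left _ _) hx) (by omega))).1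
    have hx1 : 1 ≤ x := le_trans (le_max_right _ _) hx
    have hx' : (0 : ℝ) < x := by exact_mod_cast hx1
    refine le_trans ?_ (idlSum_step L (show x ≤ 4 * x by omega))
    gcongr
    push_cast at h2 ⊢
    rw [le_div_iff₀ (by positivity)]
    nlinarith
  have hiter : ∀ j : ℕ, (j : ℝ) * (0.6 * κ) ≤ idlSum L (4 ^ j * max x0 1) := by
    intro j
    induction j with
    | zero =>
      simp only [Nat.cast_zero, zero_mul]
      exact sum_nonneg fun _ _ => by positivity
    | succ j ih =>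
      have h1 := hblock (4 ^ j * max x0 1) (Nat.le_mul_of_pos_left _ (by positivity))
      have h2 : 4 * (4 ^ j * max x0 1) = 4 ^ (j + 1) * max x0 1 := by ring
      rw [h2] at h1
      push_cast
      linarith
  obtain ⟨j, hj⟩ := exists_nat_ge (C / (0.6 * κ))
  refine ⟨_, le_trans ?_ (hiter j)⟩
  rwa [div_le_iff₀ (by positivity)] at hj

/-- Exponent of a prime ideal in an ideal. -/
noncomputable def expo (v : HeightOneSpectrum (𝓞 L)) (I : Ideal (𝓞 L)) : ℕ := by
  classical
  exact (Associates.mk v.asIdeal).count (Associates.mk I).factors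

/-- The primes of norm at most `x`. -/
lemma finite_primes (x : ℕ) :
    {v : HeightOneSpectrum (𝓞 L) | Ideal.absNorm v.asIdeal ≤ x}.Finite := by
  have h := Ideal.finite_setOfPred_absNorm_le (S := 𝓞 L) x
  refine Set.Finite.of_finite_image (f := fun v : HeightOneSpectrum (𝓞 L) => v.asIdeal) ?_ ?_
  · refine h.subset ?_
    rintro _ ⟨v, hv, rfl⟩
    exact hv
  · intro v _ w _ hvw
    exact HeightOneSpectrum.ext hvw

lemma two_le_norm (v : HeightOneSpectrum (𝓞 L)) : 2 ≤ Ideal.absNorm v.asIdeal := by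
  have h0 : Ideal.absNorm v.asIdeal ≠ 0 := by
    rw [Ne, Ideal.absNorm_eq_zero_iff]; exact v.ne_bot
  have h1 : Ideal.absNorm v.asIdeal ≠ 1 := by
    rw [Ne, Ideal.absNorm_eq_one_iff]; exact v.isPrime.ne_top
  omega

lemma eq_prod {x : ℕ} {I : Ideal (𝓞 L)} (hI : I ∈ idl L x) :
    I = ∏ v ∈ (finite_primes L x).toFinset, v.asIdeal ^ expo L v I := by
  classical
  rw [mem_idl] at hI
  have h := Ideal.finprod_heightOneSpectrum_factorization (I := I) hI.2
  rw [finprod_eq_prod_of_mulSupport_subset _ (s := (finite_primes L x).toFinset)] at h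
  · rw [← h]
    conv_rhs => rw [h]
    rfl
  · intro v hv
    rw [Function.mem_mulSupport] at hv
    rw [Finset.mem_coe, Set.Finite.mem_toFinset, Set.mem_ofPred_eq]
    have hdvd : v.asIdeal ∣ I := by
      by_contra hc
      apply hv
      unfold HeightOneSpectrum.maxPowDividing
      have : (Associates.mk v.asIdeal).count (Associates.mk I).factors = 0 := by
        by_contra h0
        exact hc ((Associates.count_ne_zero_iff_dvd hI.2 v.irreducible).mp h0)
      rw [this, pow_zero]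
    have h2 : Ideal.absNorm v.asIdeal ∣ Ideal.absNorm I :=
      Ideal.absNorm_dvd_absNorm_of_le (Ideal.le_of_dvd hdvd)
    refine (Nat.le_of_dvd ?_ h2).trans hI.1
    rw [Nat.pos_iff_ne_zero, Ne, Ideal.absNorm_eq_zero_iff]
    exact hI.2

lemma norm_eq_prod {x : ℕ} {I : Ideal (𝓞 L)} (hI : I ∈ idl L x) :
    Ideal.absNorm I = ∏ v ∈ (finite_primes L x).toFinset, Ideal.absNorm v.asIdeal ^ expo L v I := by
  conv_lhs => rw [eq_prod L hI]
  rw [map_prod]
  exact prod_congr rfl fun v _ => by rw [map_pow]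

lemma expo_le {x : ℕ} {I : Ideal (𝓞 L)} (hI : I ∈ idl L x) {v : HeightOneSpectrum (𝓞 L)}
    (hv : v ∈ (finite_primes L x).toFinset) : expo L v I ≤ x := by
  have h1 : Ideal.absNorm v.asIdeal ^ expo L v I ∣ Ideal.absNorm I := by
    rw [norm_eq_prod L hI]
    exact dvd_prod_of_mem (fun v => Ideal.absNorm v.asIdeal ^ expo L v I) hv
  have hI' := (mem_idl L).mp hI
  have h2 : Ideal.absNorm v.asIdeal ^ expo L v I ≤ x := by
    refine (Nat.le_of_dvd ?_ h1).trans hI'.1
    rw [Nat.pos_iff_ne_zero, Ne, Ideal.absNorm_eq_zero_iff]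
    exact hI'.2
  have h3 : expo L v I < Ideal.absNorm v.asIdeal ^ expo L v I :=
    Nat.lt_pow_self (two_le_norm L v)
  omega

/-- Euler product inequality. -/
lemma euler (x : ℕ) : idlSum L x ≤ ∏ v ∈ (finite_primes L x).toFinset,
    ∑ k ∈ range (x + 1), ((Ideal.absNorm v.asIdeal : ℝ)⁻¹) ^ k := by
  classical
  set T := (finite_primes L x).toFinset with hT
  rw [← Finset.prod_coe_sort T, Finset.prod_univ_sum]
  set g : Ideal (𝓞 L) → (T → ℕ) := fun I v => expo L v.1 I with hg
  have hmaps : ∀ I ∈ idl L x, g I ∈ Fintype.piFinset fun _ : T => range (x + 1) := by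
    intro I hI
    rw [Fintype.mem_piFinset]
    intro v
    rw [Finset.mem_range, Nat.lt_succ_iff]
    exact expo_le L hI v.2
  have hinj : Set.InjOn g (idl L x) := by
    intro I hI J hJ hIJ
    rw [eq_prod L hI, eq_prod L hJ]
    refine prod_congr rfl fun v hv => ?_
    have := congrFun hIJ ⟨v, hv⟩
    simp only [hg] at this
    rw [this]
  have hval : ∀ I ∈ idl L x, (Ideal.absNorm I : ℝ)⁻¹
      = ∏ v : T, ((Ideal.absNorm v.1.asIdeal : ℝ)⁻¹) ^ (g I v) := by
    intro I hI
    rw [Finset.prod_coe_sort T fun v => ((Ideal.absNorm v.asIdeal : ℝ)⁻¹) ^ (expo L v I)]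
    conv_lhs => rw [norm_eq_prod L hI]
    push_cast
    rw [← prod_inv_distrib]
    exact prod_congr rfl fun v _ => by rw [inv_pow]
  calc idlSum L x = ∑ I ∈ idl L x, ∏ v : T, ((Ideal.absNorm v.1.asIdeal : ℝ)⁻¹) ^ (g I v) :=
        sum_congr rfl hval
    _ = ∑ k ∈ (idl L x).image g, ∏ v : T, ((Ideal.absNorm v.1.asIdeal : ℝ)⁻¹) ^ (k v) := by
        rw [sum_image hinj]
    _ ≤ _ := by
        refine sum_le_sum_of_subset_of_nonneg ?_ fun _ _ _ => by positivity
        intro k hk
        obtain ⟨I, hI, rfl⟩ := mem_image.mp hk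
        exact hmaps I hI

lemma geom_le {a : ℝ} (h0 : 0 ≤ a) (h1 : a ≤ 1 / 2) (n : ℕ) :
    ∑ k ∈ range n, a ^ k ≤ Real.exp (2 * a) := by
  have h2 : ∑ k ∈ range n, a ^ k ≤ 1 / (1 - a) := by
    rw [geom_sum_eq (by linarith), le_div_iff₀ (by linarith)]
    have : (a ^ n - 1) / (a - 1) * (1 - a) = 1 - a ^ n := by
      have : a - 1 ≠ 0 := by linarith
      field_simp; ring
    rw [this]
    have : 0 ≤ a ^ n := by positivity
    linarith
  have h3 : 1 / (1 - a) ≤ 2 * a + 1 := by
    rw [div_le_iff₀ (by linarith)]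
    nlinarith
  exact (h2.trans h3).trans (Real.add_one_le_exp _)

/-- The sum of the inverse norms of the prime ideals of norm at most `x` is unbounded. -/
theorem prime_sum_unbounded (C : ℝ) :
    ∃ x : ℕ, C ≤ ∑ v ∈ (finite_primes L x).toFinset, (Ideal.absNorm v.asIdeal : ℝ)⁻¹ := by
  obtain ⟨x, hx⟩ := idlSum_unbounded L (Real.exp (2 * C))
  refine ⟨x, ?_⟩
  have h1 := hx.trans (euler L x)
  have h2 : ∏ v ∈ (finite_primes L x).toFinset,
      ∑ k ∈ range (x + 1), ((Ideal.absNorm v.asIdeal : ℝ)⁻¹) ^ k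
      ≤ ∏ v ∈ (finite_primes L x).toFinset, Real.exp (2 * (Ideal.absNorm v.asIdeal : ℝ)⁻¹) := by
    refine prod_le_prod (fun _ _ => by positivity) fun v _ => ?_
    refine geom_le (by positivity) ?_ _
    have : (2 : ℝ) ≤ Ideal.absNorm v.asIdeal := by exact_mod_cast two_le_norm L v
    rw [one_div]
    gcongr
  rw [← Real.exp_sum, ← mul_sum] at h2
  have h3 := Real.exp_le_exp.mp (h1.trans h2)
  linarith

end Pool.Agent.Helper5.Dens
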