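import Pool.Agent.Helper5.Dens.Value

/-!
# Fibres of closed points over an algebraic closure, and descent to a number field
-/

set_option autoImplicit false

namespace Pool.Agent.Helper5.Dens

open NumberField IsDedekindDomain OnePoint Polynomial
open Pool.Agent.Helper5.Camp

/-- Distinct closed points have disjoint fibres. -/
lemma fiber_disjoint {K L : Type} [Field K] [Field L] [Algebra K L] {D E : ClosedPt K}
    {x : OnePoint L} (hD : x ∈ fiber L D) (hE : x ∈ fiber L E) : D = E := by
  cases D with
  | infty =>
    have hx : x = ∞ := hD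
    subst hx
    cases E with
    | infty => rfl
    | poly g _ _ =>
      obtain ⟨β, _, hβ⟩ := hE
      exact absurd hβ (OnePoint.coe_ne_infty _)
  | poly f hf hf' =>
    obtain ⟨α, hα, rfl⟩ := hD
    cases E with
    | infty => exact absurd hE (OnePoint.coe_ne_infty _)
    | poly g hg hg' =>
      obtain ⟨β, hβ, hβα⟩ := hE
      have : β = α := OnePoint.coe_injective hβα
      subst this
      have e1 : f = minpoly K β := minpoly.eq_of_irreducible_of_monic hf' hα hf
      have e2 : g = minpoly K β := minpoly.eq_of_irreducible_of_monic hg' hβ hg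
      subst e2
      subst e1
      rfl

lemma finite_fiber {K L : Type} [Field K] [Field L] [Algebra K L] (D : ClosedPt K) :
    (fiber L D).Finite := by
  cases D with
  | infty => exact Set.finite_singleton _
  | poly f hf hf' =>
    refine Set.Finite.image _ ?_
    refine (Polynomial.rootSet_finite f L).subset ?_
    intro α hα
    rw [mem_rootSet]
    exact ⟨hf.ne_zero, hα⟩

lemma ncard_fiber {K L : Type} [Field K] [CharZero K] [Field L] [Algebra K L] {D : ClosedPt K}
    (hs : SplitsIn L D) : (fiber L D).ncard = D.deg := by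
  cases D with
  | infty => exact Set.ncard_singleton _
  | poly f hf hf' =>
    have h1 : {α : L | aeval α f = 0} = f.rootSet L := by
      ext α
      rw [mem_rootSet]
      exact ⟨fun h => ⟨hf.ne_zero, h⟩, fun h => h.2⟩
    change (OnePoint.some '' {α : L | aeval α f = 0}).ncard = f.natDegree
    rw [Set.ncard_image_of_injective _ OnePoint.coe_injective, h1, ← Nat.card_coe_set_eq,
      Nat.card_eq_fintype_card]
    exact card_rootSet_eq_natDegree hf'.separable hs

lemma splitsIn_closed {K F : Type} [Field K] [Field F] [Algebra K F] [IsAlgClosed F]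
    (D : ClosedPt K) : SplitsIn F D := by
  cases D with
  | infty => trivial
  | poly f _ _ => exact IsAlgClosed.splits _

/-- **A geometric point of simple contact, defined over a number field.** -/
theorem exists_point (K : Type) [Field K] [NumberField K] {r : ℕ} {D : Fin r → ClosedPt K}
    {m : Fin r → ℕ∞} (hD : Function.Injective D) (hm : ∀ i, 2 ≤ m i)
    (hs : 2 ≤ ∑ i, ((D i).deg : ℝ) * wt (m i)) {p q : K[X]} (hpq : IsCoprime p q)
    (hdeg : 0 < max p.natDegree q.natDegree) :
    ∃ (L : Type) (_ : Field L) (_ : NumberField L) (_ : Algebra K L) (i : Fin r)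
      (x : OnePoint L) (θ : L), SplitsIn L (D i) ∧ x ∈ fiber L (D i) ∧
      pencil (p.map (algebraMap K L)) (q.map (algebraMap K L)) x ≠ 0 ∧
      (pencil (p.map (algebraMap K L)) (q.map (algebraMap K L)) x).IsRoot θ ∧
      ((pencil (p.map (algebraMap K L)) (q.map (algebraMap K L)) x).rootMultiplicity θ : ℕ∞)
        < m i := by
  classical
  set F := AlgebraicClosure K with hF
  have : ∀ i, Fintype {x : OnePoint F // x ∈ fiber F (D i)} := fun i =>
    (finite_fiber (D i)).fintype
  have hcop : IsCoprime (p.map (algebraMap K F)) (q.map (algebraMap K F)) :=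
    hpq.map (mapRingHom (algebraMap K F))
  have hinj : Function.Injective
      (fun k : (i : Fin r) × {x : OnePoint F // x ∈ fiber F (D i)} => (k.2 : OnePoint F)) := by
    rintro ⟨i, x, hx⟩ ⟨j, y, hy⟩ hxy
    have hxy' : x = y := hxy
    subst hxy'
    obtain rfl : i = j := hD (fiber_disjoint hx hy)
    rfl
  have hsum : 2 ≤ ∑ k : (i : Fin r) × {x : OnePoint F // x ∈ fiber F (D i)}, wt (m k.1) := by
    rw [Fintype.sum_sigma]
    have : ∀ i, ∑ _x : {x : OnePoint F // x ∈ fiber F (D i)}, wt (m i)
        = ((D i).deg : ℝ) * wt (m i) := by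
      intro i
      rw [Finset.sum_const, nsmul_eq_mul, Finset.card_univ,
        ← ncard_fiber (splitsIn_closed (F := F) (D i)),
        ← Nat.card_coe_set_eq, Nat.card_eq_fintype_card]
    simp only [this]
    exact hs
  obtain ⟨⟨i, x, hx⟩, θ, h0, hθ, hlt⟩ := exists_simple hcop
    (by rwa [natDegree_map, natDegree_map]) hinj (m := fun k => m k.1) (fun k => hm _) hsum
  simp only at h0 hθ hlt
  -- the number field
  let T : Set F := {θ} ∪ {α | OnePoint.some α ∈ fiber F (D i)}
  have hTfin : T.Finite := by
    refine (Set.finite_singleton θ).union ?_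
    exact (finite_fiber (D i)).preimage (OnePoint.coe_injective.injOn)
  have : Finite T := hTfin
  let L : IntermediateField K F := IntermediateField.adjoin K T
  have hfd : FiniteDimensional K L :=
    IntermediateField.finiteDimensional_adjoin fun x _ => Algebra.IsIntegral.isIntegral x
  have hNF : NumberField L := NumberField.of_module_finite K L
  have hTL : ∀ α ∈ T, α ∈ L := fun α hα => IntermediateField.subset_adjoin K T hα
  have hcomp : (algebraMap L F).comp (algebraMap K L) = algebraMap K F :=
    (IsScalarTower.algebraMap_eq K L F).symm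
  have hinjL : Function.Injective (algebraMap L F) := (algebraMap L F).injective
  have hθL : θ ∈ L := hTL θ (Or.inl rfl)
  have hsplit : SplitsIn L (D i) := by
    have hT' : ∀ α, OnePoint.some α ∈ fiber F (D i) → α ∈ L := fun α hα => hTL α (Or.inr hα)
    clear hx hlt
    generalize D i = Di at hT'
    cases Di with
    | infty => trivial
    | poly f hf hf' =>
      refine IntermediateField.splits_of_splits (IsAlgClosed.splits _) ?_
      intro α hα
      rw [mem_rootSet] at hα
      exact hT' α ⟨α, hα.2, rfl⟩
  -- the point over `L`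
  obtain ⟨y, hy, hpen⟩ : ∃ y : OnePoint L, y ∈ fiber L (D i) ∧
      pencil (p.map (algebraMap K F)) (q.map (algebraMap K F)) x
        = (pencil (p.map (algebraMap K L)) (q.map (algebraMap K L)) y).map (algebraMap L F) := by
    have hT' : ∀ α, OnePoint.some α ∈ fiber F (D i) → α ∈ L := fun α hα => hTL α (Or.inr hα)
    clear hlt hsplit
    generalize D i = Di at hx hT'
    cases Di with
    | infty =>
      have hx' : x = ∞ := hx
      subst hx'
      refine ⟨∞, rfl, ?_⟩
      simp only [pencil, Polynomial.map_map, hcomp]
    | poly f hf hf' =>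
      obtain ⟨α, hα, rfl⟩ := hx
      have hαL : α ∈ L := hT' α ⟨α, hα, rfl⟩
      refine ⟨OnePoint.some ⟨α, hαL⟩, ⟨⟨α, hαL⟩, ?_, rfl⟩, ?_⟩
      · apply hinjL
        rw [map_zero, ← aeval_algebraMap_apply]
        exact hα
      · simp only [pencil, Polynomial.map_sub, Polynomial.map_mul, Polynomial.map_map, hcomp,
          map_C]
        rfl
  have hθ' : θ = algebraMap L F ⟨θ, hθL⟩ := rfl
  rw [hpen] at h0 hθ hlt
  refine ⟨L, inferInstance, hNF, inferInstance, i, y, ⟨θ, hθL⟩, hsplit, hy, ?_, ?_, ?_⟩
  · intro hc
    apply h0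
    rw [hc, Polynomial.map_zero]
  · rw [hθ'] at hθ
    exact IsRoot.of_map hθ hinjL
  · rw [hθ', ← eq_rootMultiplicity_map hinjL] at hlt
    exact hlt

end Pool.Agent.Helper5.Dens
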