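import Pool.Agent.Helper5.Dens.DegOne
import Pool.Agent.Helper5.Camp.Base

/-!
# Residue classes `n` with `ord_w (n - θ) = 1`
-/

set_option autoImplicit false

namespace Pool.Agent.Helper5.Dens

open NumberField IsDedekindDomain Finset
open Pool.Agent.Helper5.Camp

variable {L : Type} [Field L] [NumberField L]

lemma unram (w : HeightOneSpectrum (𝓞 L))
    (hw : ¬ ((rch L w : ℕ) : ℤ) ∣ discr L) : ((rch L w : ℕ) : 𝓞 L) ∉ w.asIdeal ^ 2 := by
  obtain ⟨hp, _, hmem⟩ := norm_rch L w
  have hp' : Prime ((rch L w : ℕ) : ℤ) := Nat.prime_iff_prime_int.mp hp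
  have h1 := (not_dvd_discr_iff_forall_mem L (𝓞 L) hp').mp hw
    w.asIdeal w.isPrime (by exact_mod_cast hmem)
  have h2 := Ideal.ramificationIdx_eq_one_of_isUnramifiedAt (R := ℤ) (p := w.asIdeal)
  have hlies : w.asIdeal.LiesOver (Ideal.span {((rch L w : ℕ) : ℤ)}) :=
    (Ideal.liesOver_span_iff w.isPrime.ne_top hp').mpr (by exact_mod_cast hmem)
  have hne : (Ideal.span {((rch L w : ℕ) : ℤ)}) ≠ ⊥ := by
    rw [Ne, Ideal.span_singleton_eq_bot]; exact hp'.ne_zero
  have h3 := Ideal.ramificationIdx'_eq_ramificationIdx (Ideal.span {((rch L w : ℕ) : ℤ)})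
    w.asIdeal hne
  rw [h2] at h3
  intro hc
  have hle : (Ideal.span {((rch L w : ℕ) : ℤ)}).map (algebraMap ℤ (𝓞 L)) ≤ w.asIdeal := by
    rw [Ideal.map_span, Ideal.span_le]
    rintro _ ⟨_, rfl, rfl⟩
    simpa using hmem
  refine (Ideal.ramificationIdx'_ne_one_iff hle).mpr ?_ h3
  rw [Ideal.map_span, Ideal.span_le]
  rintro _ ⟨_, rfl, rfl⟩
  simpa using hc

/-- A place of degree one, unramified over the rationals. -/
structure Nice (w : HeightOneSpectrum (𝓞 L)) : Prop where
  norm : Ideal.absNorm w.asIdeal = rch L w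
  ram : ¬ ((rch L w : ℕ) : ℤ) ∣ discr L

variable {w : HeightOneSpectrum (𝓞 L)}

lemma val_natCast_lt_one_iff (n : ℤ) : w.valuation L (n : L) < 1 ↔ ((rch L w : ℕ) : ℤ) ∣ n := by
  obtain ⟨hp, _, hmem⟩ := norm_rch L w
  have h1 : (n : L) = algebraMap (𝓞 L) L n := by simp
  rw [h1, HeightOneSpectrum.valuation_lt_one_iff_mem]
  constructor
  · intro h
    by_contra hc
    have hcop : IsCoprime ((rch L w : ℕ) : ℤ) n :=
      (Nat.prime_iff_prime_int.mp hp).coprime_iff_not_dvd.mpr hc
    obtain ⟨a, b, hab⟩ := hcop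
    apply w.isPrime.ne_top
    rw [Ideal.eq_top_iff_one]
    have : (1 : 𝓞 L) = (a : 𝓞 L) * ((rch L w : ℕ) : 𝓞 L) + (b : 𝓞 L) * (n : 𝓞 L) := by
      have := congrArg (fun z : ℤ => (z : 𝓞 L)) hab
      push_cast at this
      exact this.symm
    rw [this]
    exact Ideal.add_mem _ (Ideal.mul_mem_left _ _ hmem) (Ideal.mul_mem_left _ _ h)
  · rintro ⟨k, rfl⟩
    push_cast
    exact Ideal.mul_mem_right _ _ hmem

lemma val_intCast_le_one (n : ℤ) : w.valuation L (n : L) ≤ 1 := by
  have h1 : (n : L) = algebraMap (𝓞 L) L n := by simp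
  rw [h1]; exact w.valuation_le_one _

lemma val_intCast_eq_one {n : ℤ} (h : ¬ ((rch L w : ℕ) : ℤ) ∣ n) : w.valuation L (n : L) = 1 := by
  rw [← val_natCast_lt_one_iff (w := w), not_lt] at h
  exact le_antisymm (val_intCast_le_one n) h

lemma val_rch (hw : Nice w) : w.valuation L ((rch L w : ℕ) : L) = WithZero.exp (-1 : ℤ) := by
  obtain ⟨hp, _, hmem⟩ := norm_rch L w
  have h1 : ((rch L w : ℕ) : L) = algebraMap (𝓞 L) L (rch L w : ℕ) := by simp
  rw [h1, HeightOneSpectrum.valuation_of_algebraMap]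
  have h2 : w.intValuation ((rch L w : ℕ) : 𝓞 L) ≤ WithZero.exp (-((1 : ℕ) : ℤ)) :=
    (w.intValuation_le_pow_iff_mem _ 1).mpr (by rwa [pow_one])
  have h3 : ¬ w.intValuation ((rch L w : ℕ) : 𝓞 L) ≤ WithZero.exp (-((2 : ℕ) : ℤ)) := fun h =>
    unram w hw.ram ((w.intValuation_le_pow_iff_mem _ 2).mp h)
  have hne : w.intValuation ((rch L w : ℕ) : 𝓞 L) ≠ 0 :=
    w.intValuation_ne_zero _ (by exact_mod_cast hp.ne_zero)
  rw [← WithZero.log_le_iff_le_exp hne] at h2 h3
  rw [← WithZero.exp_log hne]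
  congr 1
  push_cast at h2 h3
  omega

lemma exists_residue (hw : Nice w) (x : 𝓞 L) : ∃ r : ℤ, (r : 𝓞 L) - x ∈ w.asIdeal := by
  classical
  obtain ⟨hp, _, hmem⟩ := norm_rch L w
  have hmax : w.asIdeal.IsMaximal := w.isPrime.isMaximal w.ne_bot
  let _ : Field (𝓞 L ⧸ w.asIdeal) := Ideal.Quotient.field _
  have : Finite (𝓞 L ⧸ w.asIdeal) := Ideal.finiteQuotientOfFreeOfNeBot _ w.ne_bot
  have hchar : CharP (𝓞 L ⧸ w.asIdeal) (rch L w) := by
    refine (CharP.charP_iff_prime_eq_zero hp).mpr ?_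
    rw [← map_natCast (Ideal.Quotient.mk w.asIdeal), Ideal.Quotient.eq_zero_iff_mem]
    exact hmem
  have : Fact (rch L w).Prime := ⟨hp⟩
  have hinj : Function.Injective (ZMod.castHom (dvd_refl (rch L w)) (𝓞 L ⧸ w.asIdeal)) :=
    RingHom.injective _
  have hcard : Nat.card (ZMod (rch L w)) = Nat.card (𝓞 L ⧸ w.asIdeal) := by
    rw [Nat.card_zmod, ← hw.norm]; rfl
  have hbij := (Nat.bijective_iff_injective_and_card _).mpr ⟨hinj, hcard⟩
  obtain ⟨z, hz⟩ := hbij.2 (Ideal.Quotient.mk _ x)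
  obtain ⟨r, rfl⟩ := ZMod.intCast_surjective z
  refine ⟨r, ?_⟩
  rw [← Ideal.Quotient.eq, ← hz, map_intCast, map_intCast]

lemma exists_residue' (hw : Nice w) {θ : L} (hθ : w.valuation L θ ≤ 1) :
    ∃ r : ℤ, w.valuation L ((r : L) - θ) < 1 := by
  obtain ⟨x, hx⟩ := w.exists_valuation_sub_lt_of_integer hθ 1
  obtain ⟨r, hr⟩ := exists_residue hw x
  refine ⟨r, ?_⟩
  have h1 : (r : L) - θ = algebraMap (𝓞 L) L ((r : 𝓞 L) - x) + (algebraMap (𝓞 L) L x - θ) := by
    rw [map_sub, map_intCast]; ring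
  have h2 : w.valuation L (algebraMap (𝓞 L) L ((r : 𝓞 L) - x)) < 1 :=
    (w.valuation_lt_one_iff_mem _).mpr hr
  rw [h1]
  exact Valuation.map_add_lt _ h2 (by simpa using hx)

lemma exists_residue_nat (hw : Nice w) {θ : L} (hθ : w.valuation L θ ≤ 1) :
    ∃ r : ℕ, r < rch L w ∧ w.valuation L ((r : L) - θ) < 1 := by
  obtain ⟨r, hr⟩ := exists_residue' hw hθ
  have hp := (norm_rch L w).1
  have hp0 : (0 : ℤ) < (rch L w : ℕ) := by exact_mod_cast hp.pos
  refine ⟨(r % (rch L w : ℕ)).toNat, ?_, ?_⟩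
  · have := Int.emod_lt_of_pos r hp0
    have := Int.emod_nonneg r hp0.ne'
    omega
  · have h1 : (((r % (rch L w : ℕ)).toNat : ℕ) : ℤ) = r % (rch L w : ℕ) :=
      Int.toNat_of_nonneg (Int.emod_nonneg r hp0.ne')
    have h2 : (((r % (rch L w : ℕ)).toNat : ℕ) : L)
        = (r : L) + ((-(r / (rch L w : ℕ)) * (rch L w : ℕ) : ℤ) : L) := by
      have h3 : (((r % (rch L w : ℕ)).toNat : ℕ) : L) = ((r % (rch L w : ℕ) : ℤ) : L) := by
        rw [← Int.cast_natCast, h1]
      rw [h3, ← Int.cast_add]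
      congr 1
      have := Int.emod_add_mul_ediv r (rch L w : ℕ)
      linarith
    rw [h2, add_sub_right_comm]
    refine Valuation.map_add_lt _ hr ?_
    rw [val_natCast_lt_one_iff]
    exact Dvd.intro_left _ rfl

/-- The set of natural numbers `n` with `ord_w (n - θ) = 1`. -/
def hit (w : HeightOneSpectrum (𝓞 L)) (θ : L) : Set ℕ := {n | ordv w ((n : L) - θ) = 1}

lemma mem_hit {θ : L} {n : ℕ} :
    n ∈ hit w θ ↔ w.valuation L ((n : L) - θ) = WithZero.exp (-1 : ℤ) := by
  unfold hit ordv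
  rw [Set.mem_ofPred_eq]
  constructor
  · intro h
    have hne : w.valuation L ((n : L) - θ) ≠ 0 := by
      intro h0; rw [h0] at h; simp at h
    rw [← WithZero.exp_log hne]
    congr 1
    omega
  · intro h
    rw [h]; simp

lemma val_sq (hw : Nice w) :
    w.valuation L (((rch L w) ^ 2 : ℕ) : L) = WithZero.exp (-2 : ℤ) := by
  push_cast
  rw [map_pow, val_rch hw, ← WithZero.exp_nsmul]
  norm_num

lemma hit_periodic (hw : Nice w) (θ : L) (n : ℕ) :
    n + (rch L w) ^ 2 ∈ hit w θ ↔ n ∈ hit w θ := by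
  rw [mem_hit, mem_hit]
  have h1 : (((n + (rch L w) ^ 2 : ℕ)) : L) - θ
      = ((n : L) - θ) + (((rch L w) ^ 2 : ℕ) : L) := by push_cast; ring
  have h2 := val_sq hw
  have h12 : (WithZero.exp (-2 : ℤ) : WithZero (Multiplicative ℤ)) < WithZero.exp (-1 : ℤ) :=
    WithZero.exp_lt_exp.mpr (by norm_num)
  rw [h1]
  constructor
  · intro h
    have h3 : (n : L) - θ = (((n : L) - θ) + (((rch L w) ^ 2 : ℕ) : L))
        - (((rch L w) ^ 2 : ℕ) : L) := by ring
    rw [h3, Valuation.map_sub_eq_of_lt_left, h]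
    rw [h, h2]; exact h12
  · intro h
    rw [Valuation.map_add_eq_of_lt_left, h]
    rw [h, h2]; exact h12

open Classical in
lemma hit_count (hw : Nice w) {θ : L} (hθ : w.valuation L θ ≤ 1) :
    rch L w - 1 ≤ ((range ((rch L w) ^ 2)).filter fun n => n ∈ hit w θ).card := by
  obtain ⟨r, hr, hval⟩ := exists_residue_nat hw hθ
  set p := rch L w with hp
  have hpp := (norm_rch L w).1
  rw [← hp] at hpp
  have hvp : w.valuation L (p : L) = WithZero.exp (-1 : ℤ) := val_rch hw
  set g : ℕ → ℕ := fun k => r + p * k with hg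
  have hginj : Function.Injective g := by
    intro a b hab
    simp only [hg] at hab
    exact Nat.eq_of_mul_eq_mul_left hpp.pos (Nat.add_left_cancel hab)
  set good := (range p).filter fun k => g k ∈ hit w θ with hgood
  have h1 : (good.image g) ⊆ (range (p ^ 2)).filter fun n => n ∈ hit w θ := by
    intro n hn
    obtain ⟨k, hk, rfl⟩ := mem_image.mp hn
    rw [hgood, mem_filter, Finset.mem_range] at hk
    rw [mem_filter, Finset.mem_range]
    refine ⟨?_, hk.2⟩
    simp only [hg]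
    nlinarith [hk.1]
  refine le_trans ?_ (card_le_card h1)
  rw [card_image_of_injective _ hginj]
  have hbad : ((range p).filter fun k => ¬ g k ∈ hit w θ).card ≤ 1 := by
    rw [card_le_one]
    intro a ha b hb
    rw [mem_filter, Finset.mem_range] at ha hb
    have hsmall : ∀ k : ℕ, ¬ g k ∈ hit w θ →
        w.valuation L ((g k : L) - θ) ≤ WithZero.exp (-2 : ℤ) := by
      intro k hk
      have h3 : w.valuation L ((g k : L) - θ) < 1 := by
        have : (g k : L) - θ = ((r : L) - θ) + (p : L) * (k : L) := by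
          simp only [hg]; push_cast; ring
        rw [this]
        refine Valuation.map_add_lt _ hval ?_
        rw [map_mul, hvp]
        have h4 : w.valuation L (k : L) ≤ 1 := by
          have := val_intCast_le_one (w := w) (k : ℤ)
          simpa using this
        calc _ ≤ (WithZero.exp (-1 : ℤ) : WithZero (Multiplicative ℤ)) * 1 := by gcongr
          _ < 1 := by
            rw [mul_one, ← WithZero.exp_zero]
            exact WithZero.exp_lt_exp.mpr (by norm_num)
      rcases eq_or_ne (w.valuation L ((g k : L) - θ)) 0 with h0 | h0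
      · rw [h0]; exact zero_le
      · rw [← WithZero.log_le_iff_le_exp h0]
        rw [mem_hit] at hk
        have h5 : WithZero.log (w.valuation L ((g k : L) - θ)) < 0 := by
          rw [WithZero.log_lt_iff_lt_exp h0, WithZero.exp_zero]; exact h3
        have h6 : WithZero.log (w.valuation L ((g k : L) - θ)) ≠ -1 := by
          intro h; apply hk; rw [← h, WithZero.exp_log h0]
        omega
    by_contra hab
    have h3 : w.valuation L ((g a : L) - (g b : L)) ≤ WithZero.exp (-2 : ℤ) := by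
      have : (g a : L) - (g b : L) = ((g a : L) - θ) - ((g b : L) - θ) := by ring
      rw [this]
      exact Valuation.map_sub_le _ (hsmall a ha.2) (hsmall b hb.2)
    have h4 : (g a : L) - (g b : L) = (p : L) * (((a : ℤ) - (b : ℤ) : ℤ) : L) := by
      simp only [hg]; push_cast; ring
    have h5 : w.valuation L ((((a : ℤ) - (b : ℤ) : ℤ)) : L) = 1 := by
      refine val_intCast_eq_one ?_
      intro hdvd
      have h6 := Int.eq_zero_of_abs_lt_dvd hdvd (by rw [abs_lt]; constructor <;> omega)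
      omega
    rw [h4, map_mul, h5, mul_one, hvp] at h3
    exact absurd (WithZero.exp_le_exp.mp h3) (by norm_num)
  have hsum := card_filter_add_card_filter_not (s := range p) (fun k => g k ∈ hit w θ)
  rw [card_range, ← hgood] at hsum
  omega

end Pool.Agent.Helper5.Dens
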