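import Mathlib

/-!
# A rational function on the affine line is not an orbifold morphism to a hyperbolic pair
-/

set_option autoImplicit false

namespace Pool.Agent.Helper5.Dens

open Polynomial OnePoint

/-- The coefficient `1 - 1 / m` of a multiplicity `m ∈ {2, 3, …} ∪ {∞}`, with `1 / ∞ = 0`. -/
noncomputable def wt (m : ℕ∞) : ℝ := if m = ⊤ then 1 else 1 - 1 / (m.toNat : ℝ)

lemma wt_le_one (m : ℕ∞) : wt m ≤ 1 := by
  unfold wt
  split_ifs
  · exact le_rfl
  · have : (0 : ℝ) ≤ 1 / (m.toNat : ℝ) := by positivity
    linarith

variable {F : Type} [Field F]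

/-- The numerator of `p / q - s`. -/
noncomputable def pencil (p q : F[X]) : OnePoint F → F[X]
  | ∞ => q
  | OnePoint.some a => p - C a * q

/-- The Wronskian. -/
noncomputable def wr (p q : F[X]) : F[X] := derivative p * q - p * derivative q

lemma wr_ne_zero [CharZero F] {p q : F[X]} (hpq : IsCoprime p q)
    (hdeg : 0 < max p.natDegree q.natDegree) : wr p q ≠ 0 := by
  intro h
  have h1 : derivative p * q = p * derivative q := sub_eq_zero.mp h
  have hq : q ∣ derivative q := by
    refine hpq.symm.dvd_of_dvd_mul_left ?_
    exact ⟨derivative p, by rw [← h1]; ring⟩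
  have hp : p ∣ derivative p := by
    refine hpq.dvd_of_dvd_mul_left ?_
    exact ⟨derivative q, by rw [mul_comm, h1]⟩
  have key : ∀ r : F[X], r ∣ derivative r → r.natDegree = 0 := by
    intro r hr
    by_contra hne
    have h2 : derivative r = 0 := by
      by_contra h3
      have h4 := natDegree_le_of_dvd hr h3
      have h5 := natDegree_derivative_lt hne
      omega
    exact hne (derivative_eq_zero.mp h2)
  rw [key p hp, key q hq] at hdeg
  simp at hdeg

/-- Two members of the pencil have the same Wronskian up to a nonzero constant. -/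
lemma wr_pencil (p q : F[X]) {s t : OnePoint F} (hst : s ≠ t) :
    ∃ c : F, c ≠ 0 ∧ wr (pencil p q s) (pencil p q t) = C c * wr p q := by
  induction s using OnePoint.rec with
  | infty =>
    induction t using OnePoint.rec with
    | infty => exact absurd rfl hst
    | coe b =>
      refine ⟨-1, by simp, ?_⟩
      simp only [wr, pencil, derivative_sub, derivative_mul, derivative_C]
      rw [C_neg, C_1]; ring
  | coe a =>
    induction t using OnePoint.rec with
    | infty =>
      refine ⟨1, one_ne_zero, ?_⟩
      simp only [wr, pencil, derivative_sub, derivative_mul, derivative_C]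
      rw [C_1]; ring
    | coe b =>
      refine ⟨a - b, ?_, ?_⟩
      · intro h
        exact hst (by rw [sub_eq_zero.mp h])
      · simp only [wr, pencil, derivative_sub, derivative_mul, derivative_C]
        rw [C_sub]; ring

lemma pencil_coprime {p q : F[X]} (hpq : IsCoprime p q) {s t : OnePoint F} (hst : s ≠ t) :
    IsCoprime (pencil p q s) (pencil p q t) := by
  have key : ∀ a : F, IsCoprime (p - C a * q) q := by
    intro a
    have := hpq.add_mul_right_left (-(C a))
    have h2 : p + -(C a) * q = p - C a * q := by ring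
    rwa [h2] at this
  induction s using OnePoint.rec with
  | infty =>
    induction t using OnePoint.rec with
    | infty => exact absurd rfl hst
    | coe b => exact (key b).symm
  | coe a =>
    induction t using OnePoint.rec with
    | infty => exact key a
    | coe b =>
      have hab : b - a ≠ 0 := by
        intro h
        exact hst (by rw [sub_eq_zero.mp h])
      have h1 : pencil p q (OnePoint.some b) = (p - C a * q) + C (a - b) * q := by
        simp only [pencil]; rw [C_sub]; ring
      rw [h1]
      have h2 : IsCoprime (p - C a * q) (C (a - b) * q) := by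
        refine IsCoprime.mul_right ?_ (key a)
        have hab' : a - b ≠ 0 := by rw [← neg_sub]; exact neg_ne_zero.mpr hab
        exact ⟨0, C (a - b)⁻¹, by rw [zero_mul, zero_add, ← C_mul, inv_mul_cancel₀ hab', C_1]⟩
      simp only [pencil]
      have := h2.add_mul_left_right 1
      have h3 : C (a - b) * q + (p - C a * q) * 1 = (p - C a * q) + C (a - b) * q := by ring
      rwa [h3] at this

lemma pencil_natDegree_le (p q : F[X]) (s : OnePoint F) :
    (pencil p q s).natDegree ≤ max p.natDegree q.natDegree := by
  induction s using OnePoint.rec with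
  | infty => exact le_max_right _ _
  | coe a =>
    refine (natDegree_sub_le _ _).trans (max_le_max le_rfl (natDegree_C_mul_le _ _))

/-- At most one member of the pencil has smaller degree. -/
lemma pencil_natDegree_eq (p q : F[X]) {s t : OnePoint F} (hst : s ≠ t)
    (hs : (pencil p q s).natDegree < max p.natDegree q.natDegree) :
    (pencil p q t).natDegree = max p.natDegree q.natDegree := by
  by_contra hne
  have ht : (pencil p q t).natDegree < max p.natDegree q.natDegree :=
    lt_of_le_of_ne (pencil_natDegree_le p q t) hne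
  set d := max p.natDegree q.natDegree with hd
  have key : ∀ f g : F[X], ∀ c e : F, f.natDegree < d → g.natDegree < d →
      (C c * f + C e * g).natDegree < d := by
    intro f g c e hf hg
    refine lt_of_le_of_lt (natDegree_add_le _ _) (max_lt ?_ ?_)
    · exact lt_of_le_of_lt (natDegree_C_mul_le _ _) hf
    · exact lt_of_le_of_lt (natDegree_C_mul_le _ _) hg
  have hpq : p.natDegree < d ∧ q.natDegree < d := by
    induction s using OnePoint.rec with
    | infty =>
      induction t using OnePoint.rec with
      | infty => exact absurd rfl hst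
      | coe b =>
        simp only [pencil] at hs ht
        have := key _ _ 1 b ht hs
        refine ⟨?_, hs⟩
        have h2 : C 1 * (p - C b * q) + C b * q = p := by rw [C_1]; ring
        rwa [h2] at this
    | coe a =>
      induction t using OnePoint.rec with
      | infty =>
        simp only [pencil] at hs ht
        have := key _ _ 1 a hs ht
        refine ⟨?_, ht⟩
        have h2 : C 1 * (p - C a * q) + C a * q = p := by rw [C_1]; ring
        rwa [h2] at this
      | coe b =>
        have hab : b - a ≠ 0 := by
          intro h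
          exact hst (by rw [sub_eq_zero.mp h])
        simp only [pencil] at hs ht
        have h1 := key _ _ (b - a)⁻¹ (-(b - a)⁻¹) hs ht
        have h2 : C (b - a)⁻¹ * (p - C a * q) + C (-(b - a)⁻¹) * (p - C b * q)
            = (C (b - a)⁻¹ * C (b - a)) * q := by rw [C_neg, C_sub]; ring
        rw [h2, ← C_mul, inv_mul_cancel₀ hab, C_1, one_mul] at h1
        have h3 := key _ _ 1 a hs h1
        have h4 : C 1 * (p - C a * q) + C a * q = p := by rw [C_1]; ring
        rw [h4] at h3
        exact ⟨h3, h1⟩
  have := max_lt hpq.1 hpq.2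
  omega

lemma wr_natDegree_lt {f g : F[X]} (h : 0 < f.natDegree + g.natDegree) :
    (wr f g).natDegree < f.natDegree + g.natDegree := by
  unfold wr
  refine lt_of_le_of_lt (natDegree_sub_le _ _) (max_lt ?_ ?_)
  · rcases Nat.eq_zero_or_pos f.natDegree with h0 | h0
    · rw [derivative_of_natDegree_zero h0, zero_mul, natDegree_zero]; exact h
    · refine lt_of_le_of_lt natDegree_mul_le ?_
      have := natDegree_derivative_lt h0.ne'
      omega
  · rcases Nat.eq_zero_or_pos g.natDegree with h0 | h0
    · rw [derivative_of_natDegree_zero h0, mul_zero, natDegree_zero]; exact h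
    · refine lt_of_le_of_lt natDegree_mul_le ?_
      have := natDegree_derivative_lt h0.ne'
      omega

lemma dvd_wr {f g : F[X]} {θ : F} {e : ℕ} (h : (X - C θ) ^ e ∣ f) :
    (X - C θ) ^ (e - 1) ∣ wr f g := by
  unfold wr
  have h1 : (X - C θ) ^ (e - 1) ∣ f := (pow_dvd_pow _ (Nat.sub_le e 1)).trans h
  have h2 : (X - C θ) ^ (e - 1) ∣ derivative f := by
    obtain ⟨r, rfl⟩ := h
    rw [derivative_mul, derivative_X_sub_C_pow]
    refine dvd_add ?_ ?_
    · exact Dvd.dvd.mul_right (Dvd.intro_left _ rfl) _
    · exact Dvd.dvd.mul_right (pow_dvd_pow _ (Nat.sub_le e 1)) _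
  exact dvd_sub (h2.mul_right _) (h1.mul_right _)

/-- **The affine line has no orbifold map to a pair of nonnegative degree.** -/
theorem exists_simple [CharZero F] [IsAlgClosed F] {p q : F[X]} (hpq : IsCoprime p q)
    (hdeg : 0 < max p.natDegree q.natDegree) {κ : Type} [Fintype κ] {P : κ → OnePoint F}
    (hP : Function.Injective P) {m : κ → ℕ∞} (hm : ∀ k, 2 ≤ m k) (hs : 2 ≤ ∑ k, wt (m k)) :
    ∃ k θ, pencil p q (P k) ≠ 0 ∧ (pencil p q (P k)).IsRoot θ ∧
      ((pencil p q (P k)).rootMultiplicity θ : ℕ∞) < m k := by
  classical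
  set d := max p.natDegree q.natDegree with hd
  set f : κ → F[X] := fun k => pencil p q (P k) with hf
  have hW := wr_ne_zero hpq hdeg
  have hf0 : ∀ k, f k ≠ 0 := by
    intro k h0
    -- `f k = 0` would make the other members units
    have h1 : ∀ t, t ≠ P k → (pencil p q t).natDegree = 0 := by
      intro t ht
      have := pencil_coprime hpq ht
      rw [show pencil p q (P k) = 0 from h0, isCoprime_zero_right] at this
      exact natDegree_eq_zero_of_isUnit this
    have h2 : (pencil p q (P k)).natDegree < d := by
      rw [show pencil p q (P k) = 0 from h0, natDegree_zero]; exact hdeg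
    obtain ⟨t, ht⟩ : ∃ t : OnePoint F, t ≠ P k := exists_ne _
    have h3 := pencil_natDegree_eq p q ht.symm h2
    rw [h1 t ht] at h3
    omega
  by_contra hcon
  push Not at hcon
  have hmult : ∀ k θ, (f k).IsRoot θ → m k ≤ ((f k).rootMultiplicity θ : ℕ∞) :=
    fun k θ hθ => hcon k θ (hf0 k) hθ
  -- distinct roots
  set Θ : κ → Finset F := fun k => (f k).roots.toFinset with hΘ
  have hroots : ∀ k θ, θ ∈ Θ k ↔ (f k).IsRoot θ := by
    intro k θ
    simp only [hΘ, Multiset.mem_toFinset, mem_roots (hf0 k)]
  have hdisj : ∀ k l, k ≠ l → Disjoint (Θ k) (Θ l) := by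
    intro k l hkl
    rw [Finset.disjoint_left]
    intro θ h1 h2
    rw [hroots] at h1 h2
    obtain ⟨a, b, hab⟩ := pencil_coprime hpq (fun h => hkl (hP h))
    have := congrArg (eval θ) hab
    rw [eval_add, eval_mul, eval_mul, eval_one] at this
    rw [show eval θ (pencil p q (P k)) = 0 from h1, show eval θ (pencil p q (P l)) = 0 from h2] at this
    simp at this
  -- number of roots with multiplicity
  have hcard : ∀ k, ∑ θ ∈ Θ k, (f k).rootMultiplicity θ = (f k).natDegree := by
    intro k
    have h1 : (f k).roots.card = (f k).natDegree :=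
      (IsAlgClosed.splits (f k)).natDegree_eq_card_roots.symm
    rw [← h1, ← Multiset.toFinset_sum_count_eq]
    exact Finset.sum_congr rfl fun θ _ => (count_roots _).symm
  -- at least two points
  obtain ⟨a, ha⟩ : ∃ a : κ, ∀ k, (f a).natDegree ≤ (f k).natDegree := by
    have : Nonempty κ := by
      by_contra hc
      rw [not_nonempty_iff] at hc
      rw [Fintype.sum_empty] at hs
      linarith
    obtain ⟨a, _, ha⟩ := Finset.exists_min_image Finset.univ (fun k => (f k).natDegree)
      Finset.univ_nonempty
    exact ⟨a, fun k => ha k (Finset.mem_univ k)⟩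
  have hone : ∀ k, k ≠ a → (f k).natDegree = d := by
    intro k hk
    by_contra hne
    have h1 : (f k).natDegree < d := lt_of_le_of_ne (pencil_natDegree_le p q _) hne
    have h2 := pencil_natDegree_eq p q (fun h => hk (hP h)) h1
    have h3 := ha k
    change (f a).natDegree = d at h2
    omega
  obtain ⟨b, hb⟩ : ∃ b : κ, b ≠ a := by
    by_contra hc
    push Not at hc
    have h1 : ∑ k, wt (m k) = wt (m a) := by
      rw [Finset.sum_eq_single a (fun k _ hk => absurd (hc k) hk)
        (fun h => absurd (Finset.mem_univ a) h)]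
    have := wt_le_one (m a)
    linarith
  -- degree of the Wronskian
  have hWdeg : (wr p q).natDegree < (f a).natDegree + d := by
    obtain ⟨c, hc, h1⟩ := wr_pencil p q (fun h => hb.symm (hP h) : P a ≠ P b)
    have h2 : (wr (f a) (f b)).natDegree = (wr p q).natDegree := by
      change (wr (pencil p q (P a)) (pencil p q (P b))).natDegree = _
      rw [h1, natDegree_C_mul hc]
    rw [← h2, ← hone b hb]
    refine wr_natDegree_lt ?_
    rw [hone b hb]; omega
  -- multiplicities in the Wronskian
  have hle : ∀ k, ∀ θ ∈ Θ k, (f k).rootMultiplicity θ - 1 ≤ (wr p q).rootMultiplicity θ := by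
    intro k θ _
    obtain ⟨t, ht⟩ : ∃ t : OnePoint F, t ≠ P k := exists_ne _
    obtain ⟨c, hc, h1⟩ := wr_pencil p q ht.symm
    have h2 : (X - C θ) ^ ((f k).rootMultiplicity θ - 1) ∣ wr (pencil p q (P k)) (pencil p q t) :=
      dvd_wr (pow_rootMultiplicity_dvd _ _)
    rw [h1] at h2
    have h3 : (X - C θ) ^ ((f k).rootMultiplicity θ - 1) ∣ wr p q := by
      have h4 : wr p q = C c⁻¹ * (C c * wr p q) := by
        rw [← mul_assoc, ← C_mul, inv_mul_cancel₀ hc, C_1, one_mul]
      rw [h4]
      exact h2.mul_left _
    exact (le_rootMultiplicity_iff hW).mpr h3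
  have hsum : ∑ k, ∑ θ ∈ Θ k, ((f k).rootMultiplicity θ - 1) ≤ (wr p q).natDegree := by
    calc ∑ k, ∑ θ ∈ Θ k, ((f k).rootMultiplicity θ - 1)
        ≤ ∑ k, ∑ θ ∈ Θ k, (wr p q).rootMultiplicity θ :=
          Finset.sum_le_sum fun k _ => Finset.sum_le_sum (hle k)
      _ = ∑ θ ∈ Finset.univ.biUnion Θ, (wr p q).rootMultiplicity θ := by
          rw [Finset.sum_biUnion]
          intro k _ l _ hkl
          exact hdisj k l hkl
      _ = ∑ θ ∈ (Finset.univ.biUnion Θ).filter (fun θ => θ ∈ (wr p q).roots.toFinset),
            (wr p q).rootMultiplicity θ := by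
          rw [Finset.sum_filter_of_ne]
          intro θ _ hne
          rw [Multiset.mem_toFinset, mem_roots hW]
          exact (rootMultiplicity_pos hW).mp (Nat.pos_of_ne_zero hne)
      _ ≤ ∑ θ ∈ (wr p q).roots.toFinset, (wr p q).rootMultiplicity θ := by
          refine Finset.sum_le_sum_of_subset_of_nonneg ?_ fun _ _ _ => Nat.zero_le _
          intro θ hθ
          exact (Finset.mem_filter.mp hθ).2
      _ = (wr p q).roots.card := by
          rw [← Multiset.toFinset_sum_count_eq]
          exact Finset.sum_congr rfl fun θ _ => (count_roots _).symm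
      _ ≤ _ := card_roots' _
  -- compare with the weights
  have hk : ∀ k, ((f k).natDegree : ℝ) * wt (m k)
      ≤ ((∑ θ ∈ Θ k, ((f k).rootMultiplicity θ - 1) : ℕ) : ℝ) := by
    intro k
    have h1 : (∑ θ ∈ Θ k, ((f k).rootMultiplicity θ - 1)) + (Θ k).card = (f k).natDegree := by
      rw [← hcard k, Finset.card_eq_sum_ones, ← Finset.sum_add_distrib]
      refine Finset.sum_congr rfl fun θ hθ => ?_
      have := (rootMultiplicity_pos (hf0 k)).mpr ((hroots k θ).mp hθ)
      omega
    have h1' : ((∑ θ ∈ Θ k, ((f k).rootMultiplicity θ - 1) : ℕ) : ℝ)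
        = (f k).natDegree - (Θ k).card := by
      rw [← h1]; push_cast; ring
    rw [h1']
    by_cases htop : m k = ⊤
    · have hemp : Θ k = ∅ := by
        rw [Finset.eq_empty_iff_forall_notMem]
        intro θ hθ
        have := hmult k θ ((hroots k θ).mp hθ)
        rw [htop] at this
        exact absurd this (by simp)
      rw [hemp]
      unfold wt
      rw [if_pos htop]; simp
    · obtain ⟨n, hn⟩ := ENat.ne_top_iff_exists.mp htop
      have hn2 : 2 ≤ n := by
        have := hm k
        rw [← hn] at this
        exact_mod_cast this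
      have h2 : n * (Θ k).card ≤ (f k).natDegree := by
        rw [← hcard k, mul_comm, ← smul_eq_mul, ← Finset.sum_const]
        refine Finset.sum_le_sum fun θ hθ => ?_
        have := hmult k θ ((hroots k θ).mp hθ)
        rw [← hn] at this
        exact_mod_cast this
      have h3 : (n : ℝ) * ((Θ k).card : ℝ) ≤ (f k).natDegree := by exact_mod_cast h2
      have hnpos : (0 : ℝ) < n := by positivity
      unfold wt
      rw [if_neg htop, ← hn, ENat.toNat_natCast]
      have h4 : ((Θ k).card : ℝ) ≤ (f k).natDegree / n := by
        rw [le_div_iff₀ hnpos, mul_comm]; exact h3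
      have h5 : ((f k).natDegree : ℝ) * (1 - 1 / n) = (f k).natDegree - (f k).natDegree / n := by
        field_simp
      rw [h5]; linarith
  have htotal : ∑ k, ((f k).natDegree : ℝ) * wt (m k) ≤ ((wr p q).natDegree : ℝ) := by
    calc ∑ k, ((f k).natDegree : ℝ) * wt (m k)
        ≤ ∑ k, ((∑ θ ∈ Θ k, ((f k).rootMultiplicity θ - 1) : ℕ) : ℝ) :=
          Finset.sum_le_sum fun k _ => hk k
      _ = ((∑ k, ∑ θ ∈ Θ k, ((f k).rootMultiplicity θ - 1) : ℕ) : ℝ) := by push_cast; rfl
      _ ≤ _ := by exact_mod_cast hsum
  have hlow : (d : ℝ) + (f a).natDegree ≤ ∑ k, ((f k).natDegree : ℝ) * wt (m k) := by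
    have h1 : ∑ k, ((f k).natDegree : ℝ) * wt (m k)
        = ∑ k, (d : ℝ) * wt (m k) - ((d : ℝ) - (f a).natDegree) * wt (m a) := by
      rw [← Finset.add_sum_erase _ _ (Finset.mem_univ a), ← Finset.add_sum_erase
        (f := fun k => (d : ℝ) * wt (m k)) _ (Finset.mem_univ a)]
      have : ∑ x ∈ Finset.univ.erase a, ((f x).natDegree : ℝ) * wt (m x)
          = ∑ x ∈ Finset.univ.erase a, (d : ℝ) * wt (m x) := by
        refine Finset.sum_congr rfl fun x hx => ?_
        rw [hone x (Finset.ne_of_mem_erase hx)]
      rw [this]; ring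
    rw [h1, ← Finset.mul_sum]
    have h2 : ((f a).natDegree : ℝ) ≤ d := by exact_mod_cast pencil_natDegree_le p q (P a)
    have h3 := wt_le_one (m a)
    have h4 : (0 : ℝ) ≤ d := by positivity
    nlinarith
  have h1 : ((wr p q).natDegree : ℝ) < (f a).natDegree + d := by exact_mod_cast hWdeg
  linarith

end Pool.Agent.Helper5.Dens
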