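import Pool.Agent.Helper5.Dens.Local

/-!
# A sieve with square moduli
-/

set_option autoImplicit false

namespace Pool.Agent.Helper5.Dens

open Finset

open Classical in
/-- The set of `n < N` in `E`. -/
noncomputable def fl (E : Set ℕ) (N : ℕ) : Finset ℕ := (range N).filter fun n => n ∈ E

lemma mem_fl {E : Set ℕ} {N n : ℕ} : n ∈ fl E N ↔ n < N ∧ n ∈ E := by
  classical
  unfold fl
  rw [mem_filter, Finset.mem_range]

/-- The number of `n < N` in `E`. -/
noncomputable def cnt (E : Set ℕ) (N : ℕ) : ℕ := (fl E N).card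

lemma periodic_mul {E : Set ℕ} {M : ℕ} (h : ∀ n, n + M ∈ E ↔ n ∈ E) (k n : ℕ) :
    n + M * k ∈ E ↔ n ∈ E := by
  induction k with
  | zero => simp
  | succ k ih => rw [Nat.mul_succ, ← add_assoc, h, ih]

lemma periodic_mod {E : Set ℕ} {M : ℕ} (h : ∀ n, n + M ∈ E ↔ n ∈ E) (n : ℕ) :
    n % M ∈ E ↔ n ∈ E := by
  conv_rhs => rw [← Nat.mod_add_div n M]
  exact (periodic_mul h _ _).symm

lemma cnt_inter_le {E F : Set ℕ} {a b : ℕ} (ha : 0 < a) (hb : 0 < b) (hab : Nat.Coprime a b)
    (hE : ∀ n, n + a ∈ E ↔ n ∈ E) (hF : ∀ n, n + b ∈ F ↔ n ∈ F) :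
    cnt (E ∩ F) (a * b) ≤ cnt E a * cnt F b := by
  classical
  unfold cnt
  rw [← card_product]
  refine card_le_card_of_injOn (fun n => (n % a, n % b)) ?_ ?_
  · intro n hn
    rw [Finset.mem_coe, mem_fl] at hn
    rw [Finset.mem_coe, mem_product, mem_fl, mem_fl]
    exact ⟨⟨Nat.mod_lt _ ha, (periodic_mod hE n).mpr hn.2.1⟩,
      ⟨Nat.mod_lt _ hb, (periodic_mod hF n).mpr hn.2.2⟩⟩
  · intro m hm n hn hmn
    rw [Finset.mem_coe, mem_fl] at hm hn
    simp only [Prod.mk.injEq] at hmn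
    have h1 : m ≡ n [MOD a * b] :=
      (Nat.modEq_and_modEq_iff_modEq_mul hab).mp ⟨hmn.1, hmn.2⟩
    exact Nat.ModEq.eq_of_lt_of_lt h1 hm.1 hn.1

lemma cnt_le_of_periodic {E : Set ℕ} {M : ℕ} (hM : 0 < M) (h : ∀ n, n + M ∈ E ↔ n ∈ E) (N : ℕ) :
    cnt E N ≤ (N / M + 1) * cnt E M := by
  classical
  have hmono : cnt E N ≤ cnt E (M * (N / M + 1)) := by
    refine card_le_card fun n hn => ?_
    rw [mem_fl] at hn ⊢
    have := Nat.lt_mul_div_succ N hM
    exact ⟨by omega, hn.2⟩
  refine hmono.trans (le_of_eq ?_)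
  have key : ∀ k, cnt E (M * k) = k * cnt E M := by
    intro k
    induction k with
    | zero => simp [cnt, fl]
    | succ k ih =>
      have h1 : cnt E (M * (k + 1)) = cnt E (M * k) + cnt E M := by
        unfold cnt
        have h2 : fl E (M * (k + 1)) = fl E (M * k) ∪ (fl E M).image fun n => n + M * k := by
          ext n
          rw [mem_union, mem_image, mem_fl, mem_fl, Nat.mul_succ]
          constructor
          · rintro ⟨h3, h4⟩
            rcases Nat.lt_or_ge n (M * k) with h5 | h5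
            · exact Or.inl ⟨h5, h4⟩
            · right
              refine ⟨n - M * k, mem_fl.mpr ⟨by omega, ?_⟩, by omega⟩
              have : n = (n - M * k) + M * k := by omega
              rw [this] at h4
              exact (periodic_mul h _ _).mp h4
          · rintro (⟨h3, h4⟩ | ⟨m, hm, rfl⟩)
            · exact ⟨by omega, h4⟩
            · rw [mem_fl] at hm
              exact ⟨by omega, (periodic_mul h _ _).mpr hm.2⟩
        rw [h2, card_union_of_disjoint, card_image_of_injective _ (add_left_injective _)]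
        rw [disjoint_left]
        intro n hn hn'
        obtain ⟨m, _, rfl⟩ := mem_image.mp hn'
        rw [mem_fl] at hn
        omega
      rw [h1, ih]; ring
  rw [key]

lemma cnt_biInter_le {ι : Type} (s : Finset ι) (M : ι → ℕ) (A : ι → Set ℕ)
    (hM : ∀ i ∈ s, 0 < M i) (hcop : ∀ i ∈ s, ∀ j ∈ s, i ≠ j → Nat.Coprime (M i) (M j))
    (hper : ∀ i ∈ s, ∀ n, n + M i ∈ A i ↔ n ∈ A i) :
    0 < ∏ i ∈ s, M i ∧ (∀ n, n + ∏ i ∈ s, M i ∈ (⋂ i ∈ s, A i) ↔ n ∈ (⋂ i ∈ s, A i)) ∧
      cnt (⋂ i ∈ s, A i) (∏ i ∈ s, M i) ≤ ∏ i ∈ s, cnt (A i) (M i) := by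
  classical
  induction s using Finset.induction_on with
  | empty => simp [cnt, fl]
  | insert a s ha ih =>
    obtain ⟨h1, h2, h3⟩ := ih (fun i hi => hM i (mem_insert_of_mem hi))
      (fun i hi j hj => hcop i (mem_insert_of_mem hi) j (mem_insert_of_mem hj))
      (fun i hi => hper i (mem_insert_of_mem hi))
    have hc : Nat.Coprime (M a) (∏ i ∈ s, M i) :=
      Nat.Coprime.prod_right fun i hi => hcop a (mem_insert_self a s) i (mem_insert_of_mem hi)
        (fun h => ha (h ▸ hi))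
    have hMa := hM a (mem_insert_self a s)
    have hpa := hper a (mem_insert_self a s)
    rw [prod_insert ha, prod_insert ha, Finset.set_biInter_insert]
    refine ⟨Nat.mul_pos hMa h1, ?_, ?_⟩
    · intro n
      rw [Set.mem_inter_iff, Set.mem_inter_iff, periodic_mul hpa, mul_comm, periodic_mul h2]
    · exact (cnt_inter_le hMa h1 hc hpa h2).trans (Nat.mul_le_mul_left _ h3)

end Pool.Agent.Helper5.Dens
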