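import Pool.Agent.Helper5.Dens.RH
import Pool.Agent.Helper5.Dens.Density
import Pool.Agent.Helper5.Camp.Transfer

/-!
# Intersection numbers of values of a rational function at `n` with `ord_w (n - θ) = 1`
-/

set_option autoImplicit false

namespace Pool.Agent.Helper5.Dens

open NumberField IsDedekindDomain OnePoint Polynomial
open Pool.Agent.Helper5.Camp

variable {L : Type} [Field L] [NumberField L] {w : HeightOneSpectrum (𝓞 L)}

lemma val_pow_sub {a b : L} (ha : w.valuation L a ≤ 1) (hb : w.valuation L b ≤ 1)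
    (hab : w.valuation L (a - b) < 1) (i : ℕ) : w.valuation L (a ^ i - b ^ i) < 1 := by
  induction i with
  | zero => simp
  | succ i ih =>
    have h1 : a ^ (i + 1) - b ^ (i + 1) = a * (a ^ i - b ^ i) + (a - b) * b ^ i := by ring
    rw [h1]
    refine Valuation.map_add_lt _ ?_ ?_
    · rw [map_mul]
      exact mul_lt_one_of_nonneg_of_lt_one_right ha zero_le ih
    · rw [map_mul, map_pow]
      exact mul_lt_one_of_nonneg_of_lt_one_left zero_le hab (pow_le_one₀ zero_le hb)

lemma val_eval_sub {r : L[X]} (hr : ∀ i, w.valuation L (r.coeff i) ≤ 1) {a b : L}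
    (ha : w.valuation L a ≤ 1) (hb : w.valuation L b ≤ 1) (hab : w.valuation L (a - b) < 1) :
    w.valuation L (r.eval a - r.eval b) < 1 := by
  rw [eval_eq_sum_range, eval_eq_sum_range, ← Finset.sum_sub_distrib]
  refine Valuation.map_sum_lt _ one_ne_zero fun i _ => ?_
  rw [← mul_sub, map_mul]
  exact mul_lt_one_of_nonneg_of_lt_one_right (hr i) zero_le (val_pow_sub ha hb hab i)

lemma val_eval_unit {r : L[X]} (hr : ∀ i, w.valuation L (r.coeff i) ≤ 1) {a b : L}
    (ha : w.valuation L a ≤ 1) (hb : w.valuation L b ≤ 1) (hab : w.valuation L (a - b) < 1)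
    (h : w.valuation L (r.eval b) = 1) : w.valuation L (r.eval a) = 1 := by
  rw [← h]
  refine Valuation.map_eq_of_sub_lt _ ?_
  rw [h]
  exact val_eval_sub hr ha hb hab

lemma finite_coeff (r : L[X]) :
    {w : HeightOneSpectrum (𝓞 L) | ¬ ∀ i, w.valuation L (r.coeff i) ≤ 1}.Finite := by
  have h : (⋃ i ∈ Finset.range (r.natDegree + 1),
      {w : HeightOneSpectrum (𝓞 L) | ¬ w.valuation L (r.coeff i) ≤ 1}).Finite :=
    Set.Finite.biUnion (Finset.finite_toSet _) fun i _ => finite_nonint _
  refine h.subset ?_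
  intro w hw
  by_contra hc
  apply hw
  intro i
  by_cases hi : i ∈ Finset.range (r.natDegree + 1)
  · by_contra h2
    exact hc (Set.mem_biUnion hi h2)
  · rw [Finset.mem_range, not_lt] at hi
    rw [coeff_eq_zero_of_natDegree_lt (by omega), map_zero]
    exact zero_le_one

lemma finite_nonunit {x : L} (hx : x ≠ 0) :
    {w : HeightOneSpectrum (𝓞 L) | w.valuation L x ≠ 1}.Finite := by
  refine (finite_ordv_ne x).subset ?_
  intro w hw hc
  apply hw
  unfold ordv at hc
  have h1 : (w.valuation L x).log = 0 := by omega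
  rw [← WithZero.exp_log (val_ne w hx), h1, WithZero.exp_zero]

lemma ordv_of_val {x : L} {k : ℤ} (h : w.valuation L x = WithZero.exp (-k)) : ordv w x = k := by
  unfold ordv
  rw [h, WithZero.log_exp, neg_neg]

lemma ordv_nonneg_of_val {x : L} (h : w.valuation L x ≤ 1) : 0 ≤ ordv w x := by
  unfold ordv
  rcases eq_or_ne (w.valuation L x) 0 with h0 | h0
  · rw [h0]; simp
  · have := (WithZero.log_le_log h0 one_ne_zero).mpr h
    rw [WithZero.log_one] at this
    omega

lemma hit_data {θ : L} {n : ℕ} (hn : n ∈ hit w θ) :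
    w.valuation L ((n : L) - θ) = WithZero.exp (-1 : ℤ) ∧ w.valuation L ((n : L) - θ) < 1 := by
  have h := mem_hit.mp hn
  refine ⟨h, ?_⟩
  rw [h, ← WithZero.exp_zero]
  exact WithZero.exp_lt_exp.mpr (by norm_num)

lemma val_natCast_le (n : ℕ) : w.valuation L (n : L) ≤ 1 := by
  have := val_intCast_le_one (w := w) (n : ℤ)
  simpa using this

/-- The value of `g = (X - θ) ^ e * h` at a hit. -/
lemma val_hit {θ : L} {e : ℕ} {h : L[X]} (hh : ∀ i, w.valuation L (h.coeff i) ≤ 1)
    (hθ : w.valuation L θ ≤ 1) (hu : w.valuation L (h.eval θ) = 1) {n : ℕ} (hn : n ∈ hit w θ) :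
    w.valuation L (((X - C θ) ^ e * h).eval (n : L)) = WithZero.exp (-(e : ℤ)) := by
  obtain ⟨h1, h2⟩ := hit_data hn
  rw [eval_mul, eval_pow, eval_sub, eval_X, eval_C, map_mul, map_pow, h1,
    val_eval_unit hh (val_natCast_le n) hθ h2 hu, mul_one, ← WithZero.exp_nsmul]
  congr 1
  simp

theorem inter_value {p q : L[X]} (hpq : IsCoprime p q) (x : OnePoint L) {θ : L}
    (h0 : pencil p q x ≠ 0) (hθ : (pencil p q x).IsRoot θ) :
    ∃ Bad : Set (HeightOneSpectrum (𝓞 L)), Bad.Finite ∧ ∀ w ∉ Bad, ∀ n ∈ hit w θ,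
      q.eval (n : L) ≠ 0 ∧ inter w (OnePoint.some (p.eval (n : L) / q.eval (n : L))) x
        = ((pencil p q x).rootMultiplicity θ : ℤ) := by
  obtain ⟨h, hh, hdvd⟩ := exists_eq_pow_rootMultiplicity_mul_and_not_dvd _ h0 θ
  have he : 0 < (pencil p q x).rootMultiplicity θ := (rootMultiplicity_pos h0).mpr hθ
  set e := (pencil p q x).rootMultiplicity θ with hedef
  have hhθ : h.eval θ ≠ 0 := by
    intro hc
    exact hdvd (dvd_iff_isRoot.mpr hc)
  obtain ⟨a, b, hab⟩ := hpq
  have hab' := congrArg (eval θ) hab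
  rw [eval_add, eval_mul, eval_mul, eval_one] at hab'
  induction x using OnePoint.rec with
  | infty =>
    have hq : q.eval θ = 0 := hθ
    have hp : p.eval θ ≠ 0 := by
      intro hc
      rw [hq, hc] at hab'
      simp at hab'
    refine ⟨(({w | ¬ ∀ i, w.valuation L (p.coeff i) ≤ 1} ∪
      {w | ¬ ∀ i, w.valuation L (h.coeff i) ≤ 1}) ∪ {w | ¬ w.valuation L θ ≤ 1}) ∪
      ({w | w.valuation L (p.eval θ) ≠ 1} ∪ {w | w.valuation L (h.eval θ) ≠ 1}),
      (((finite_coeff p).union (finite_coeff h)).union (finite_nonint θ)).union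
        ((finite_nonunit hp).union (finite_nonunit hhθ)), ?_⟩
    intro w hw n hn
    simp only [Set.mem_union, Set.mem_ofPred_eq, not_or, not_not, ne_eq] at hw
    obtain ⟨⟨⟨w1, w2⟩, w3⟩, w4, w5⟩ := hw
    have hval : w.valuation L (q.eval (n : L)) = WithZero.exp (-(e : ℤ)) := by
      have := val_hit (e := e) w2 w3 w5 hn
      rwa [← hh] at this
    have hvp : w.valuation L (p.eval (n : L)) = 1 :=
      val_eval_unit w1 (val_natCast_le n) w3 (hit_data hn).2 w4
    have hq0 : q.eval (n : L) ≠ 0 := by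
      intro hc
      rw [hc, map_zero] at hval
      exact WithZero.exp_ne_zero hval.symm
    refine ⟨hq0, ?_⟩
    have h1 : ordv w (p.eval (n : L) / q.eval (n : L)) = -(e : ℤ) := by
      refine ordv_of_val ?_
      rw [map_div₀, hval, hvp, one_div, ← WithZero.exp_neg]
    simp only [inter, h1]
    omega
  | coe α =>
    have hg : p.eval θ - α * q.eval θ = 0 := by
      have : (pencil p q (OnePoint.some α)).eval θ = 0 := hθ
      simpa [pencil] using this
    have hq : q.eval θ ≠ 0 := by
      intro hc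
      rw [hc, mul_zero, sub_zero] at hg
      rw [hg, hc] at hab'
      simp at hab'
    refine ⟨(({w | ¬ ∀ i, w.valuation L (q.coeff i) ≤ 1} ∪
      {w | ¬ ∀ i, w.valuation L (h.coeff i) ≤ 1}) ∪ ({w | ¬ w.valuation L θ ≤ 1} ∪
      {w | ¬ w.valuation L α ≤ 1})) ∪
      ({w | w.valuation L (q.eval θ) ≠ 1} ∪ {w | w.valuation L (h.eval θ) ≠ 1}),
      (((finite_coeff q).union (finite_coeff h)).union
        ((finite_nonint θ).union (finite_nonint α))).union
        ((finite_nonunit hq).union (finite_nonunit hhθ)), ?_⟩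
    intro w hw n hn
    simp only [Set.mem_union, Set.mem_ofPred_eq, not_or, not_not, ne_eq] at hw
    obtain ⟨⟨⟨w1, w2⟩, w3, w3'⟩, w4, w5⟩ := hw
    have hval : w.valuation L (p.eval (n : L) - α * q.eval (n : L))
        = WithZero.exp (-(e : ℤ)) := by
      have := val_hit (e := e) w2 w3 w5 hn
      rw [← hh] at this
      simpa [pencil] using this
    have hvq : w.valuation L (q.eval (n : L)) = 1 :=
      val_eval_unit w1 (val_natCast_le n) w3 (hit_data hn).2 w4
    have hq0 : q.eval (n : L) ≠ 0 := by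
      intro hc
      rw [hc, map_zero] at hvq
      exact zero_ne_one hvq
    refine ⟨hq0, ?_⟩
    have h1 : p.eval (n : L) / q.eval (n : L) - α
        = (p.eval (n : L) - α * q.eval (n : L)) / q.eval (n : L) := by
      field_simp
    have h2 : w.valuation L (p.eval (n : L) / q.eval (n : L) - α) = WithZero.exp (-(e : ℤ)) := by
      rw [h1, map_div₀, hval, hvq, div_one]
    have h3 : ordv w (p.eval (n : L) / q.eval (n : L) - α) = e := ordv_of_val h2
    have h4 : w.valuation L (p.eval (n : L) / q.eval (n : L)) ≤ 1 := by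
      have h5 : p.eval (n : L) / q.eval (n : L)
          = (p.eval (n : L) / q.eval (n : L) - α) + α := by ring
      rw [h5]
      refine Valuation.map_add_le _ ?_ w3'
      rw [h2, ← WithZero.exp_zero]
      exact WithZero.exp_le_exp.mpr (by omega)
    have h6 := ordv_nonneg_of_val h4
    have h7 := ordv_nonneg_of_val w3'
    simp only [inter, h3]
    omega

end Pool.Agent.Helper5.Dens
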